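import Pool.Agent.Lib.MP_d470cf_nt.Dickson

set_option autoImplicit false

open Polynomial

namespace Pool.Agent.Lib.MP_d470cf_nt

theorem dvd_of_mul_int {R : Type*} [CommRing R] (p : ℕ) [hp : Fact p.Prime] (d : ℤ)
    (hd : ¬ (p : ℤ) ∣ d) (x : R) (h : (p : R) ∣ (d : R) * x) : (p : R) ∣ x := by
  have hcop : IsCoprime (p : ℤ) d :=
    (Nat.prime_iff_prime_int.1 hp.out).coprime_iff_not_dvd.2 hd
  obtain ⟨a, b, hab⟩ := hcop
  obtain ⟨c, hc⟩ := h
  have h1 : (a : R) * (p : R) + (b : R) * (d : R) = 1 := by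
    have := congrArg (fun z : ℤ => (z : R)) hab
    push_cast at this
    exact this
  refine ⟨a * x + b * c, ?_⟩
  linear_combination (-x) * h1 + (b : R) * hc

theorem alg_aux {R : Type*} [CommRing R] [IsDomain R] [CharZero R] (p : ℕ) [hp : Fact p.Prime]
    (a b e : R) (d : ℤ) (hd : ¬ (p : ℤ) ∣ d) (h1 : (p : R) ∣ a) (h2 : (p : R) ^ 2 ∣ a * b)
    (h3 : b = a + e) (h4 : e ^ 2 = d) : (p : R) ^ 2 ∣ a := by
  have hp0 : (p : R) ≠ 0 := by exact_mod_cast hp.out.ne_zero
  obtain ⟨g, rfl⟩ := h1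
  obtain ⟨c, hc⟩ := h2
  have h5 : g * ((p : R) * g + e) = (p : R) * c := by
    have : (p : R) * (g * ((p : R) * g + e)) = (p : R) * ((p : R) * c) := by
      rw [h3] at hc
      linear_combination hc
    exact mul_left_cancel₀ hp0 this
  have h6 : (p : R) ∣ (d : R) * g := by
    refine ⟨e * c - e * g ^ 2, ?_⟩
    rw [← h4]
    linear_combination e * h5
  have h7 := dvd_of_mul_int p d hd g h6
  obtain ⟨k, rfl⟩ := h7
  exact ⟨k, by ring⟩

theorem alg_main {R : Type*} [CommRing R] [IsDomain R] [CharZero R] (p : ℕ) [hp : Fact p.Prime]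
    (hp2 : p ≠ 2) (t N : ℤ) (hN : N = 1 ∨ N = -1) (α : R)
    (hα : α ^ 2 - t * α + N = 0) (hd : ¬ (p : ℤ) ∣ t ^ 2 - 4 * N)
    (hV : (p : ℤ) ^ 2 ∣ V N p t - t) :
    (legendreSym p (t ^ 2 - 4 * N) = 1 → (p : R) ^ 2 ∣ α ^ p - α) ∧
    (legendreSym p (t ^ 2 - 4 * N) = -1 → (p : R) ^ 2 ∣ α ^ p - (t - α)) := by
  have hodd : p % 2 = 1 := by
    rcases hp.out.eq_two_or_odd with h | h
    · exact absurd h hp2
    · exact h
  have hp_eq : p = 2 * (p / 2) + 1 := by omega
  have hNp : N ^ p = N := by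
    rcases hN with h | h
    · rw [h]; simp
    · rw [h]; exact Odd.neg_one_pow (Nat.odd_iff.2 hodd)
  have hmul : α * (t - α) = N := by linear_combination -hα
  -- the value of V in R
  have hVR : ((V N p t : ℤ) : R) = α ^ p + ((t : R) - α) ^ p := by
    have h1 := dickson_eval_add (N : R) α (t - α) hmul p
    have h2 : α + ((t : R) - α) = t := by ring
    rw [h2] at h1
    rw [← h1]
    unfold V
    have h3 : (dickson 1 (N : R) p) = (dickson 1 N p).map (Int.castRingHom R) := by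
      rw [map_dickson]; simp
    rw [h3, eval_intCast_map]
    simp
  -- quadratic equation for β = α ^ p
  have hβ : (α ^ p) * ((t : R) - α) ^ p = N := by
    rw [← mul_pow, hmul]
    exact_mod_cast hNp
  obtain ⟨c, hc⟩ := hV
  have hcR : ((V N p t : ℤ) : R) = t + (p : R) ^ 2 * c := by
    have : V N p t = t + (p : ℤ) ^ 2 * c := by linear_combination hc
    rw [this]; push_cast; ring
  have hprod : (α ^ p - α) * (α ^ p - (t - α)) = (p : R) ^ 2 * (c * α ^ p) := by
    have e1 : ((t : R) - α) ^ p = t + (p : R) ^ 2 * c - α ^ p := by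
      rw [hVR] at hcR; linear_combination hcR
    rw [e1] at hβ
    linear_combination -hβ - hα
  -- Frobenius
  obtain ⟨r, hr⟩ := exists_add_pow_prime_eq hp.out (t : R) (2 * α - t)
  have hδ : (2 * α - (t : R)) ^ 2 = ((t ^ 2 - 4 * N : ℤ) : R) := by
    push_cast
    linear_combination 4 * hα
  have hδp : (2 * α - (t : R)) ^ p = (2 * α - t) * (((t ^ 2 - 4 * N) ^ (p / 2) : ℤ) : R) := by
    conv_lhs => rw [hp_eq]
    rw [pow_succ, pow_mul, hδ]
    push_cast
    ring
  have hfer : ∀ z : ℤ, ∃ w : ℤ, z ^ p = z + p * w := by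
    intro z
    have : (p : ℤ) ∣ z ^ p - z := by
      rw [← ZMod.intCast_zmod_eq_zero_iff_dvd]
      push_cast
      rw [ZMod.pow_card, sub_self]
    obtain ⟨w, hw⟩ := this
    exact ⟨w, by linear_combination hw⟩
  obtain ⟨w1, hw1⟩ := hfer t
  obtain ⟨w2, hw2⟩ := hfer 2
  have heul : (p : ℤ) ∣ (t ^ 2 - 4 * N) ^ (p / 2) - legendreSym p (t ^ 2 - 4 * N) := by
    rw [← ZMod.intCast_zmod_eq_zero_iff_dvd]
    have := legendreSym.eq_pow p (t ^ 2 - 4 * N)
    push_cast at this ⊢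
    rw [this, sub_self]
  obtain ⟨w3, hw3⟩ := heul
  have hw1R : (t : R) ^ p = t + p * w1 := by exact_mod_cast hw1
  have hw2R : (2 : R) ^ p = 2 + p * w2 := by exact_mod_cast hw2
  have hw3R : (((t ^ 2 - 4 * N) ^ (p / 2) : ℤ) : R) =
      (legendreSym p (t ^ 2 - 4 * N) : ℤ) + (p : R) * w3 := by
    have : (t ^ 2 - 4 * N) ^ (p / 2) = legendreSym p (t ^ 2 - 4 * N) + p * w3 := by
      linear_combination hw3
    rw [this]; push_cast; ring
  have hkey : (2 + (p : R) * w2) * α ^ p = (t + p * w1) +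
      (2 * α - t) * ((legendreSym p (t ^ 2 - 4 * N) : ℤ) + (p : R) * w3) +
        p * (t * (2 * α - t) * r) := by
    have e1 : (t : R) + (2 * α - t) = 2 * α := by ring
    rw [e1, mul_pow, hδp, hw1R, hw2R, hw3R] at hr
    linear_combination hr
  have h2p : ¬ (p : ℤ) ∣ 2 := by
    intro h
    have : p ∣ 2 := by exact_mod_cast h
    exact hp2 ((Nat.prime_dvd_prime_iff_eq hp.out Nat.prime_two).1 this)
  constructor
  · intro hl
    have h1 : (p : R) ∣ α ^ p - α := by
      apply dvd_of_mul_int p 2 h2p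
      rw [hl] at hkey
      refine ⟨w1 + (2 * α - t) * w3 + t * (2 * α - t) * r - w2 * α ^ p, ?_⟩
      push_cast at hkey ⊢
      linear_combination hkey
    exact alg_aux p (α ^ p - α) (α ^ p - (t - α)) (2 * α - t) (t ^ 2 - 4 * N) hd h1
      ⟨_, hprod⟩ (by ring) hδ
  · intro hl
    have h1 : (p : R) ∣ α ^ p - (t - α) := by
      apply dvd_of_mul_int p 2 h2p
      rw [hl] at hkey
      refine ⟨w1 + (2 * α - t) * w3 + t * (2 * α - t) * r - w2 * α ^ p, ?_⟩
      push_cast at hkey ⊢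
      linear_combination hkey
    exact alg_aux p (α ^ p - (t - α)) (α ^ p - α) (t - 2 * α) (t ^ 2 - 4 * N) hd h1
      ⟨_, by rw [mul_comm]; exact hprod⟩ (by ring) (by rw [← hδ]; ring)

end Pool.Agent.Lib.MP_d470cf_nt
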