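import Mathlib

set_option autoImplicit false

open Finset

namespace Pool.Agent.Lib.MP_d470cf_nt

theorem count_periodic_mul (Q : ℕ → Prop) [DecidablePred Q] (m : ℕ)
    (hQ : Function.Periodic Q m) (k : ℕ) : Nat.count Q (m * k) = k * Nat.count Q m := by
  induction k with
  | zero => simp
  | succ k ih =>
    rw [Nat.mul_succ, Nat.count_add, ih]
    have h : ∀ j, Q (m * k + j) ↔ Q j := by
      intro j
      have := hQ.nat_mul k j
      rw [add_comm, mul_comm]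
      exact iff_of_eq (by simpa using this)
    have h2 : Nat.count (fun j => Q (m * k + j)) m = Nat.count Q m := by
      simp only [Nat.count_eq_card_filter_range, h]
    rw [h2]
    ring

theorem count_periodic_upper (Q : ℕ → Prop) [DecidablePred Q] (m : ℕ) (hm : 0 < m)
    (hQ : Function.Periodic Q m) (T : ℕ) :
    (Nat.count Q T : ℝ) ≤ ((T : ℝ) / m + 1) * Nat.count Q m := by
  have h1 : Nat.count Q T ≤ Nat.count Q (m * (T / m + 1)) :=
    Nat.count_monotone Q (Nat.lt_mul_div_succ T hm).le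
  rw [count_periodic_mul Q m hQ] at h1
  have h2 : (Nat.count Q T : ℝ) ≤ ((T / m : ℕ) + 1) * Nat.count Q m := by exact_mod_cast h1
  refine h2.trans ?_
  apply mul_le_mul_of_nonneg_right _ (by positivity)
  have : ((T / m : ℕ) : ℝ) ≤ (T : ℝ) / m := Nat.cast_div_le
  linarith

theorem count_periodic_lower (Q : ℕ → Prop) [DecidablePred Q] (m : ℕ) (hm : 0 < m)
    (hQ : Function.Periodic Q m) (T : ℕ) :
    ((T : ℝ) / m - 1) * Nat.count Q m ≤ (Nat.count Q T : ℝ) := by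
  have h1 : Nat.count Q (m * (T / m)) ≤ Nat.count Q T :=
    Nat.count_monotone Q (Nat.mul_div_le T m)
  rw [count_periodic_mul Q m hQ] at h1
  have h2 : ((T / m : ℕ) : ℝ) * Nat.count Q m ≤ (Nat.count Q T : ℝ) := by exact_mod_cast h1
  refine le_trans ?_ h2
  apply mul_le_mul_of_nonneg_right _ (by positivity)
  have h3 : (T : ℝ) / m < (T / m : ℕ) + 1 := by
    rw [div_lt_iff₀ (by exact_mod_cast hm)]
    have := Nat.lt_mul_div_succ T hm
    have h4 : (T : ℝ) < (m : ℝ) * ((T / m : ℕ) + 1) := by exact_mod_cast this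
    linarith
  linarith

theorem second_moment (S : Finset ℕ) (A : ℕ → ℕ → Prop) [∀ p, DecidablePred (A p)] (ν : ℕ → ℕ)
    (hS : ∀ p ∈ S, 0 < p)
    (hper : ∀ p ∈ S, Function.Periodic (A p) (p ^ 2))
    (hcount : ∀ p ∈ S, Nat.count (A p) (p ^ 2) = ν p)
    (hpair : ∀ p ∈ S, ∀ q ∈ S, p ≠ q →
      Nat.count (fun t => A p t ∧ A q t) (p ^ 2 * q ^ 2) ≤ ν p * ν q)
    (T : ℕ) (μ W : ℝ) (hμ : μ = ∑ p ∈ S, (ν p : ℝ) / (p : ℝ) ^ 2) (hW : W = ∑ p ∈ S, (ν p : ℝ)) :
    ∑ t ∈ range T, (((#{p ∈ S | A p t} : ℕ) : ℝ) - μ) ^ 2 ≤ T * μ + W ^ 2 + W + 2 * μ * W := by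
  have hf : ∀ t, ((#{p ∈ S | A p t} : ℕ) : ℝ) = ∑ p ∈ S, (if A p t then (1 : ℝ) else 0) := by
    intro t
    rw [Finset.sum_boole]
  have hμ0 : 0 ≤ μ := by
    rw [hμ]; apply Finset.sum_nonneg; intro p _; positivity
  have hW0 : 0 ≤ W := by
    rw [hW]; apply Finset.sum_nonneg; intro p _; positivity
  -- first moment
  have hcnt : ∀ Q : ℕ → Prop, ∀ [DecidablePred Q], ∑ t ∈ range T, (if Q t then (1 : ℝ) else 0) =
      (Nat.count Q T : ℝ) := by
    intro Q _
    rw [Finset.sum_boole, Nat.count_eq_card_filter_range]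
  have h1 : (T : ℝ) * μ - W ≤ ∑ t ∈ range T, ((#{p ∈ S | A p t} : ℕ) : ℝ) := by
    simp_rw [hf]
    rw [Finset.sum_comm, hμ, hW, Finset.mul_sum, ← Finset.sum_sub_distrib]
    apply Finset.sum_le_sum
    intro p hp
    rw [hcnt]
    have := count_periodic_lower (A p) (p ^ 2) (pow_pos (hS p hp) 2) (hper p hp) T
    rw [hcount p hp] at this
    push_cast at this
    refine le_trans (le_of_eq ?_) this
    ring
  -- second moment
  have h2 : ∑ t ∈ range T, ((#{p ∈ S | A p t} : ℕ) : ℝ) ^ 2 ≤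
      T * μ ^ 2 + W ^ 2 + (T * μ + W) := by
    have e1 : ∀ t, ((#{p ∈ S | A p t} : ℕ) : ℝ) ^ 2 =
        ∑ p ∈ S, ∑ q ∈ S, (if A p t ∧ A q t then (1 : ℝ) else 0) := by
      intro t
      rw [hf, sq, Finset.sum_mul_sum]
      apply Finset.sum_congr rfl; intro p _
      apply Finset.sum_congr rfl; intro q _
      by_cases ha : A p t <;> by_cases hb : A q t <;> simp [ha, hb]
    simp_rw [e1]
    rw [Finset.sum_comm]
    have e2 : ∀ p ∈ S, ∑ t ∈ range T, ∑ q ∈ S, (if A p t ∧ A q t then (1 : ℝ) else 0) ≤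
        ∑ q ∈ S, ((T : ℝ) * ((ν p : ℝ) / (p : ℝ) ^ 2) * ((ν q : ℝ) / (q : ℝ) ^ 2) + ν p * ν q) +
        ((T : ℝ) * ((ν p : ℝ) / (p : ℝ) ^ 2) + ν p) := by
      intro p hp
      rw [Finset.sum_comm]
      have e3 : ∀ q ∈ S, ∑ t ∈ range T, (if A p t ∧ A q t then (1 : ℝ) else 0) ≤
          ((T : ℝ) * ((ν p : ℝ) / (p : ℝ) ^ 2) * ((ν q : ℝ) / (q : ℝ) ^ 2) + ν p * ν q) +
          (if q = p then ((T : ℝ) * ((ν p : ℝ) / (p : ℝ) ^ 2) + ν p) else 0) := by
        intro q hq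
        rw [hcnt]
        by_cases hqp : q = p
        · subst hqp
          rw [if_pos rfl]
          have e4 : Nat.count (fun t => A q t ∧ A q t) T = Nat.count (A q) T := by
            simp only [and_self]
          rw [e4]
          have := count_periodic_upper (A q) (q ^ 2) (pow_pos (hS q hp) 2) (hper q hp) T
          rw [hcount q hp] at this
          push_cast at this
          refine this.trans ?_
          have e5 : ((T : ℝ) / (q : ℝ) ^ 2 + 1) * ν q = (T : ℝ) * ((ν q : ℝ) / (q : ℝ) ^ 2) + ν q := by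
            ring
          rw [e5]
          have : (0 : ℝ) ≤ (T : ℝ) * ((ν q : ℝ) / (q : ℝ) ^ 2) * ((ν q : ℝ) / (q : ℝ) ^ 2) + ν q * ν q := by
            positivity
          linarith
        · rw [if_neg hqp, add_zero]
          have hperpq : Function.Periodic (fun t => A p t ∧ A q t) (p ^ 2 * q ^ 2) := by
            intro t
            have hA := (hper p hp).nat_mul (q ^ 2) t
            have hB := (hper q hq).nat_mul (p ^ 2) t
            simp only [Nat.cast_id] at hA hB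
            simp only
            rw [← hB, mul_comm (p ^ 2) (q ^ 2)]
            rw [mul_comm (p ^ 2) (q ^ 2)] at hB
            rw [hA, hB]
          have := count_periodic_upper (fun t => A p t ∧ A q t) (p ^ 2 * q ^ 2)
            (Nat.mul_pos (pow_pos (hS p hp) 2) (pow_pos (hS q hq) 2)) hperpq T
          refine this.trans ?_
          have h5 : (Nat.count (fun t => A p t ∧ A q t) (p ^ 2 * q ^ 2) : ℝ) ≤ ν p * ν q := by
            exact_mod_cast hpair p hp q hq (Ne.symm hqp)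
          refine (mul_le_mul_of_nonneg_left h5 (by positivity)).trans (le_of_eq ?_)
          push_cast
          have hp0 : (p : ℝ) ≠ 0 := by exact_mod_cast (hS p hp).ne'
          have hq0 : (q : ℝ) ≠ 0 := by exact_mod_cast (hS q hq).ne'
          field_simp
      refine (Finset.sum_le_sum e3).trans ?_
      rw [Finset.sum_add_distrib, Finset.sum_ite_eq' S p, if_pos hp]
    refine (Finset.sum_le_sum e2).trans (le_of_eq ?_)
    rw [Finset.sum_add_distrib, Finset.sum_add_distrib, ← Finset.mul_sum, ← hμ, ← hW]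
    have e6 : ∑ p ∈ S, ∑ q ∈ S, ((T : ℝ) * ((ν p : ℝ) / (p : ℝ) ^ 2) * ((ν q : ℝ) / (q : ℝ) ^ 2) + ν p * ν q) =
        T * μ ^ 2 + W ^ 2 := by
      simp_rw [Finset.sum_add_distrib, ← Finset.mul_sum, ← hμ, ← hW, ← Finset.sum_mul,
        ← Finset.mul_sum, ← hμ, ← hW]
      ring
    rw [e6]
  -- combine
  have h3 : ∑ t ∈ range T, (((#{p ∈ S | A p t} : ℕ) : ℝ) - μ) ^ 2 =
      ∑ t ∈ range T, ((#{p ∈ S | A p t} : ℕ) : ℝ) ^ 2 -
        2 * μ * ∑ t ∈ range T, ((#{p ∈ S | A p t} : ℕ) : ℝ) + T * μ ^ 2 := by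
    rw [Finset.mul_sum, ← Finset.sum_sub_distrib]
    have : (T : ℝ) * μ ^ 2 = ∑ t ∈ range T, μ ^ 2 := by simp
    rw [this, ← Finset.sum_add_distrib]
    apply Finset.sum_congr rfl
    intro t _
    ring
  rw [h3]
  nlinarith [mul_le_mul_of_nonneg_left h1 hμ0]

/-- Chebyshev's inequality form. -/
theorem chebyshev_count (S : Finset ℕ) (A : ℕ → ℕ → Prop) [∀ p, DecidablePred (A p)] (ν : ℕ → ℕ)
    (hS : ∀ p ∈ S, 0 < p)
    (hper : ∀ p ∈ S, Function.Periodic (A p) (p ^ 2))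
    (hcount : ∀ p ∈ S, Nat.count (A p) (p ^ 2) = ν p)
    (hpair : ∀ p ∈ S, ∀ q ∈ S, p ≠ q →
      Nat.count (fun t => A p t ∧ A q t) (p ^ 2 * q ^ 2) ≤ ν p * ν q)
    (T : ℕ) (μ W lam : ℝ) (hμ : μ = ∑ p ∈ S, (ν p : ℝ) / (p : ℝ) ^ 2)
    (hW : W = ∑ p ∈ S, (ν p : ℝ)) (hlam : 0 ≤ lam) :
    (#{t ∈ range T | ((#{p ∈ S | A p t} : ℕ) : ℝ) ≤ μ - lam} : ℝ) * lam ^ 2 ≤
      T * μ + W ^ 2 + W + 2 * μ * W := by
  refine le_trans ?_ (second_moment S A ν hS hper hcount hpair T μ W hμ hW)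
  have h1 : ∑ t ∈ range T with ((#{p ∈ S | A p t} : ℕ) : ℝ) ≤ μ - lam,
      (((#{p ∈ S | A p t} : ℕ) : ℝ) - μ) ^ 2 ≤
      ∑ t ∈ range T, (((#{p ∈ S | A p t} : ℕ) : ℝ) - μ) ^ 2 :=
    Finset.sum_le_sum_of_subset_of_nonneg (Finset.filter_subset _ _) (fun _ _ _ => sq_nonneg _)
  refine le_trans ?_ h1
  rw [← nsmul_eq_mul]
  apply Finset.card_nsmul_le_sum
  intro t ht
  have := (Finset.mem_filter.1 ht).2
  nlinarith

end Pool.Agent.Lib.MP_d470cf_nt
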