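import Mathlib

set_option autoImplicit false

open Finset

namespace Pool.Agent.Lib.MP_d470cf_nt

/-- the monoid hom `n ↦ 1/n` -/
noncomputable def invHom : ℕ →* ℝ where
  toFun n := (n : ℝ)⁻¹
  map_one' := by simp
  map_mul' a b := by push_cast; rw [mul_inv]

theorem log_le_prod (N : ℕ) (hN : 1 ≤ N) :
    Real.log N ≤ ∏ p ∈ Nat.primesBelow N, (1 - (p : ℝ)⁻¹)⁻¹ := by
  have h1 := EulerProduct.summable_and_hasSum_smoothNumbers_prod_primesBelow_geometric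
    (f := invHom) (fun {p} hp => by
      simp only [invHom, MonoidHom.coe_mk, OneHom.coe_mk, norm_inv, Real.norm_natCast]
      exact inv_lt_one_of_one_lt₀ (by exact_mod_cast hp.one_lt)) N
  obtain ⟨h2, h3⟩ := h1
  have h4 : ∑ m ∈ Finset.Icc 1 (N - 1), (m : ℝ)⁻¹ ≤ ∏ p ∈ Nat.primesBelow N, (1 - (p : ℝ)⁻¹)⁻¹ := by
    have h5 := (hasSum_subtype_iff_indicator (f := fun m : ℕ => (m : ℝ)⁻¹)
      (s := Nat.smoothNumbers N)).1 h3
    have h6 := sum_le_hasSum (Finset.Icc 1 (N - 1)) (fun i _ => by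
      apply Set.indicator_nonneg
      intro m _
      positivity) h5
    refine le_trans (le_of_eq ?_) h6
    apply Finset.sum_congr rfl
    intro m hm
    rw [Finset.mem_Icc] at hm
    rw [Set.indicator_of_mem]
    exact Nat.mem_smoothNumbers_of_lt (by omega) (by omega)
  refine le_trans ?_ h4
  have h7 := log_add_one_le_harmonic (N - 1)
  rw [harmonic_eq_sum_Icc] at h7
  push_cast at h7
  have h8 : ((N - 1 : ℕ) : ℝ) + 1 = N := by
    have : (N - 1) + 1 = N := by omega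
    exact_mod_cast this
  rw [h8] at h7
  exact h7

theorem neg_log_le (p : ℕ) (hp : 2 ≤ p) :
    Real.log ((1 - (p : ℝ)⁻¹)⁻¹) ≤ 1 / (p : ℝ) + 2 / (p : ℝ) ^ 2 := by
  have hp2 : (2 : ℝ) ≤ p := by exact_mod_cast hp
  have hp0 : (0 : ℝ) < p := by linarith
  have h1 : (0 : ℝ) < (1 - (p : ℝ)⁻¹)⁻¹ := by
    apply inv_pos.2
    have : (p : ℝ)⁻¹ < 1 := inv_lt_one_of_one_lt₀ (by linarith)
    linarith
  have h2 := Real.log_le_sub_one_of_pos h1
  refine h2.trans ?_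
  have h3 : (1 - (p : ℝ)⁻¹)⁻¹ - 1 = 1 / ((p : ℝ) - 1) := by
    have : (p : ℝ) - 1 ≠ 0 := by linarith
    field_simp
    ring
  rw [h3, div_add_div _ _ hp0.ne' (by positivity), div_le_div_iff₀ (by linarith) (by positivity)]
  nlinarith [mul_pos hp0 hp0, mul_nonneg (mul_pos hp0 hp0).le (sub_nonneg.2 hp2)]

theorem sum_inv_sq (n : ℕ) (hn : 1 ≤ n) :
    ∑ k ∈ Finset.Icc 2 n, 1 / (k : ℝ) ^ 2 ≤ 1 - 1 / (n : ℝ) := by
  induction n, hn using Nat.le_induction with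
  | base => simp
  | succ m hm ih =>
    rw [Finset.sum_Icc_succ_top (by omega)]
    have hm' : (0 : ℝ) < m := by exact_mod_cast hm
    have : 1 / ((m + 1 : ℕ) : ℝ) ^ 2 ≤ 1 / (m : ℝ) - 1 / ((m + 1 : ℕ) : ℝ) := by
      push_cast
      rw [div_sub_div _ _ hm'.ne' (by positivity), div_le_div_iff₀ (by positivity) (by positivity)]
      nlinarith
    linarith

/-- `log log N ≤ ∑_{p < N} 1/p + 2`. -/
theorem loglog_le (N : ℕ) (hN : 2 ≤ N) :
    Real.log (Real.log N) ≤ ∑ p ∈ Nat.primesBelow N, 1 / (p : ℝ) + 2 := by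
  have h1 := log_le_prod N (by omega)
  have hlog : 0 < Real.log N := Real.log_pos (by exact_mod_cast hN)
  have h2 := Real.log_le_log hlog h1
  have hpr : ∀ p ∈ Nat.primesBelow N, 2 ≤ p := fun p hp => (Nat.prime_of_mem_primesBelow hp).two_le
  rw [Real.log_prod (fun p hp => by
    have := hpr p hp
    have h3 : (p : ℝ)⁻¹ < 1 := inv_lt_one_of_one_lt₀ (by exact_mod_cast (by omega : 1 < p))
    exact (inv_pos.2 (by linarith)).ne')] at h2
  refine h2.trans ?_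
  have h4 : ∑ p ∈ Nat.primesBelow N, Real.log ((1 - (p : ℝ)⁻¹)⁻¹) ≤
      ∑ p ∈ Nat.primesBelow N, (1 / (p : ℝ) + 2 / (p : ℝ) ^ 2) :=
    Finset.sum_le_sum (fun p hp => neg_log_le p (hpr p hp))
  refine h4.trans ?_
  rw [Finset.sum_add_distrib]
  have h5 : ∑ p ∈ Nat.primesBelow N, 2 / (p : ℝ) ^ 2 ≤ 2 * ∑ k ∈ Finset.Icc 2 N, 1 / (k : ℝ) ^ 2 := by
    rw [Finset.mul_sum]
    have : ∑ p ∈ Nat.primesBelow N, 2 / (p : ℝ) ^ 2 = ∑ p ∈ Nat.primesBelow N, 2 * (1 / (p : ℝ) ^ 2) := by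
      apply Finset.sum_congr rfl; intro p _; ring
    rw [this]
    apply Finset.sum_le_sum_of_subset_of_nonneg
    · intro p hp
      rw [Finset.mem_Icc]
      exact ⟨hpr p hp, (Nat.lt_of_mem_primesBelow hp).le⟩
    · intro p _ _; positivity
  have h6 := sum_inv_sq N (by omega)
  have h7 : (0 : ℝ) ≤ 1 / N := by positivity
  linarith

end Pool.Agent.Lib.MP_d470cf_nt
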