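import Pool.Agent.Lib.MP_d470cf_nt.Classes
import Pool.Agent.Lib.MP_d470cf_nt.Moment
import Pool.Agent.Lib.MP_d470cf_nt.Recip

set_option autoImplicit false

open Finset Classical Filter

namespace Pool.Agent.Lib.MP_d470cf_nt

/-- odd primes at most `P` -/
noncomputable def oddPrimes (P : ℕ) : Finset ℕ := (Nat.primesBelow (P + 1)).erase 2

theorem mem_oddPrimes {P p : ℕ} : p ∈ oddPrimes P ↔ p ≠ 2 ∧ p.Prime ∧ p ≤ P := by
  unfold oddPrimes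
  rw [Finset.mem_erase, Nat.mem_primesBelow]
  constructor
  · rintro ⟨h1, h2, h3⟩; exact ⟨h1, h3, by omega⟩
  · rintro ⟨h1, h2, h3⟩; exact ⟨h1, by omega, h2⟩

theorem mu_lower (N : ℤ) (P : ℕ) (hP : 2 ≤ P) :
    Real.log (Real.log ((P + 1 : ℕ) : ℝ)) - 5 ≤ ∑ p ∈ oddPrimes P, (nu N p : ℝ) / (p : ℝ) ^ 2 := by
  have h1 := loglog_le (P + 1) (by omega)
  have h2 : ∑ p ∈ Nat.primesBelow (P + 1), 1 / (p : ℝ) = ∑ p ∈ oddPrimes P, 1 / (p : ℝ) + 1 / 2 := by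
    unfold oddPrimes
    rw [← Finset.sum_erase_add (a := 2) _ _ (by rw [Nat.mem_primesBelow]; exact ⟨by omega, Nat.prime_two⟩)]
    norm_num
  have h3 : ∑ p ∈ oddPrimes P, (1 / (p : ℝ) - 2 / (p : ℝ) ^ 2) ≤
      ∑ p ∈ oddPrimes P, (nu N p : ℝ) / (p : ℝ) ^ 2 := by
    apply Finset.sum_le_sum
    intro p hp
    obtain ⟨-, hpp, -⟩ := mem_oddPrimes.1 hp
    have hp0 : (0 : ℝ) < p := by exact_mod_cast hpp.pos
    have h4 : (p : ℝ) ≤ nu N p + 2 := by exact_mod_cast le_nu N p hpp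
    have h5 : 1 / (p : ℝ) - 2 / (p : ℝ) ^ 2 = ((p : ℝ) - 2) / (p : ℝ) ^ 2 := by
      field_simp
    rw [h5]
    apply div_le_div_of_nonneg_right (by linarith) (by positivity)
  rw [Finset.sum_sub_distrib] at h3
  have h6 : ∑ p ∈ oddPrimes P, 2 / (p : ℝ) ^ 2 ≤ 2 * ∑ k ∈ Finset.Icc 2 P, 1 / (k : ℝ) ^ 2 := by
    rw [Finset.mul_sum]
    have : ∑ p ∈ oddPrimes P, 2 / (p : ℝ) ^ 2 = ∑ p ∈ oddPrimes P, 2 * (1 / (p : ℝ) ^ 2) := by
      apply Finset.sum_congr rfl; intro p _; ring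
    rw [this]
    apply Finset.sum_le_sum_of_subset_of_nonneg
    · intro p hp
      obtain ⟨-, hpp, h⟩ := mem_oddPrimes.1 hp
      rw [Finset.mem_Icc]
      exact ⟨hpp.two_le, h⟩
    · intro p _ _; positivity
  have h7 := sum_inv_sq P (by omega)
  have h8 : (0 : ℝ) ≤ 1 / P := by positivity
  linarith

theorem W_upper (N : ℤ) (P : ℕ) :
    ∑ p ∈ oddPrimes P, (nu N p : ℝ) ≤ (P : ℝ) ^ 2 := by
  have h1 : ∑ p ∈ oddPrimes P, (nu N p : ℝ) ≤ ∑ p ∈ oddPrimes P, (P : ℝ) := by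
    apply Finset.sum_le_sum
    intro p hp
    obtain ⟨-, hpp, h⟩ := mem_oddPrimes.1 hp
    exact_mod_cast (nu_le N p).trans h
  refine h1.trans ?_
  rw [Finset.sum_const, nsmul_eq_mul, sq]
  apply mul_le_mul_of_nonneg_right _ (by positivity)
  have : (oddPrimes P).card ≤ P := by
    have h2 : oddPrimes P ⊆ Finset.Icc 1 P := by
      intro p hp
      obtain ⟨-, hpp, h⟩ := mem_oddPrimes.1 hp
      rw [Finset.mem_Icc]
      exact ⟨hpp.one_lt.le, h⟩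
    have := Finset.card_le_card h2
    simpa using this
  exact_mod_cast this

theorem bad_small (N : ℤ) (c : ℝ) (hc0 : 0 < c) (hc1 : c < 1) (ε : ℝ) (hε : 0 < ε) :
    ∃ P0 : ℕ, ∀ P T : ℕ, P0 ≤ P → P ^ 4 ≤ T →
      (((range T).filter (fun t => ((#{p ∈ oddPrimes P | ACond N p t} : ℕ) : ℝ) <
        c * Real.log (Real.log ((P + 1 : ℕ) : ℝ)))).card : ℝ) ≤ ε * T := by
  -- constants
  obtain ⟨κ, hκ⟩ : ∃ κ : ℝ, κ = (1 - c) / 2 := ⟨_, rfl⟩
  have hκ0 : 0 < κ := by rw [hκ]; linarith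
  -- choose M0
  obtain ⟨M0, hM0⟩ : ∃ M0 : ℝ, M0 = max (max 4 (2 / (ε * κ ^ 2))) (7 * c / κ) := ⟨_, rfl⟩
  have hlim : Tendsto (fun T : ℕ => Real.log (Real.log (T : ℝ))) atTop atTop :=
    Real.tendsto_log_atTop.comp (Real.tendsto_log_atTop.comp tendsto_natCast_atTop_atTop)
  obtain ⟨T1, hT1⟩ := (hlim.eventually_ge_atTop (M0 + 7)).exists_forall_of_atTop
  refine ⟨max T1 2, fun P T hP hPT => ?_⟩
  have hTT1 : T1 ≤ P + 1 := ((le_max_left _ _).trans hP).trans (Nat.le_succ P)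
  have hP2 : 2 ≤ P := (le_max_right _ _).trans hP
  have hL := hT1 (P + 1) hTT1
  obtain ⟨L, hLdef⟩ : ∃ L : ℝ, L = Real.log (Real.log ((P + 1 : ℕ) : ℝ)) := ⟨_, rfl⟩
  rw [← hLdef] at hL ⊢
  obtain ⟨μ, hμ⟩ : ∃ μ : ℝ, μ = ∑ p ∈ oddPrimes P, (nu N p : ℝ) / (p : ℝ) ^ 2 := ⟨_, rfl⟩
  obtain ⟨W, hW⟩ : ∃ W : ℝ, W = ∑ p ∈ oddPrimes P, (nu N p : ℝ) := ⟨_, rfl⟩
  -- lower bound for μ
  have hμL : L - 7 ≤ μ := by
    have h1 := mu_lower N P hP2
    rw [← hμ, ← hLdef] at h1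
    linarith
  have hμM : M0 ≤ μ := by linarith
  rw [hM0] at hμM
  have hμ4 : 4 ≤ μ := ((le_max_left _ _).trans (le_max_left _ _)).trans hμM
  have hμε : 2 / (ε * κ ^ 2) ≤ μ := ((le_max_right _ _).trans (le_max_left _ _)).trans hμM
  have hμc : 7 * c / κ ≤ μ := (le_max_right _ _).trans hμM
  -- W bounds
  have hW2 : W ^ 2 ≤ T := by
    have h1 := W_upper N P
    rw [← hW] at h1
    have h2 : 0 ≤ W := by rw [hW]; apply Finset.sum_nonneg; intro p _; positivity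
    have h3 : W ^ 2 ≤ ((P : ℝ) ^ 2) ^ 2 := pow_le_pow_left₀ h2 h1 2
    have h4 : ((P : ℝ) ^ 2) ^ 2 ≤ (T : ℝ) := by
      have h5 : (P : ℝ) ^ 4 ≤ (T : ℝ) := by exact_mod_cast hPT
      calc ((P : ℝ) ^ 2) ^ 2 = (P : ℝ) ^ 4 := by ring
        _ ≤ (T : ℝ) := h5
    exact h3.trans h4
  have hμW : μ ≤ W := by
    rw [hμ, hW]
    apply Finset.sum_le_sum
    intro p hp
    obtain ⟨-, hpp, -⟩ := mem_oddPrimes.1 hp
    have : (1 : ℝ) ≤ (p : ℝ) ^ 2 := by exact_mod_cast Nat.one_le_pow _ _ hpp.pos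
    exact div_le_self (by positivity) this
  have hW1 : W ≤ W ^ 2 := by nlinarith
  have hμ0 : 0 ≤ μ := by linarith
  -- apply Chebyshev
  obtain ⟨lam, hlam⟩ : ∃ lam : ℝ, lam = κ * μ := ⟨_, rfl⟩
  have hlam0 : 0 < lam := by rw [hlam]; exact mul_pos hκ0 (by linarith)
  have hcheb := chebyshev_count (oddPrimes P) (ACond N) (nu N)
    (fun p hp => (mem_oddPrimes.1 hp).2.1.pos)
    (fun p hp => ACond_periodic N p (mem_oddPrimes.1 hp).2.1)
    (fun p hp => ACond_count N p (mem_oddPrimes.1 hp).2.1)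
    (fun p hp q hq hpq => ACond_pair N p q (mem_oddPrimes.1 hp).2.1 (mem_oddPrimes.1 hq).2.1 hpq)
    T μ W lam hμ hW hlam0.le
  have hsub : ((range T).filter (fun t => ((#{p ∈ oddPrimes P | ACond N p t} : ℕ) : ℝ) < c * L)).card
      ≤ (#{t ∈ range T | ((#{p ∈ oddPrimes P | ACond N p t} : ℕ) : ℝ) ≤ μ - lam} : ℕ) := by
    apply Finset.card_le_card
    intro t ht
    rw [Finset.mem_filter] at ht ⊢
    refine ⟨ht.1, ht.2.le.trans ?_⟩
    -- c L ≤ c (μ + 7) ≤ μ - κ μ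
    have h1 : c * L ≤ c * (μ + 7) := mul_le_mul_of_nonneg_left (by linarith) hc0.le
    have h2 : 7 * c ≤ μ * κ := by rwa [div_le_iff₀ hκ0] at hμc
    have h3 : μ - lam = c * μ + κ * μ := by rw [hlam, hκ]; ring
    rw [h3]
    linarith
  have hB : (((range T).filter (fun t => ((#{p ∈ oddPrimes P | ACond N p t} : ℕ) : ℝ) < c * L)).card : ℝ)
      * lam ^ 2 ≤ T * (μ + 4) := by
    have h1 : (((range T).filter (fun t => ((#{p ∈ oddPrimes P | ACond N p t} : ℕ) : ℝ) < c * L)).card : ℝ)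
      * lam ^ 2 ≤ (#{t ∈ range T | ((#{p ∈ oddPrimes P | ACond N p t} : ℕ) : ℝ) ≤ μ - lam} : ℝ) * lam ^ 2 := by
      apply mul_le_mul_of_nonneg_right _ (by positivity)
      exact_mod_cast hsub
    refine h1.trans (hcheb.trans ?_)
    nlinarith [mul_le_mul_of_nonneg_right hμW (by linarith : 0 ≤ W)]
  -- (μ + 4) ≤ ε lam^2
  have hfin : μ + 4 ≤ ε * lam ^ 2 := by
    have h1 : 2 ≤ μ * (ε * κ ^ 2) := by rwa [div_le_iff₀ (by positivity)] at hμε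
    have h2 : ε * lam ^ 2 = μ * (μ * (ε * κ ^ 2)) := by rw [hlam]; ring
    rw [h2]
    nlinarith [mul_le_mul_of_nonneg_left h1 hμ0]
  have h9 : (((range T).filter (fun t => ((#{p ∈ oddPrimes P | ACond N p t} : ℕ) : ℝ) < c * L)).card : ℝ)
      * lam ^ 2 ≤ (ε * T) * lam ^ 2 := by
    refine hB.trans ?_
    calc (T : ℝ) * (μ + 4) ≤ T * (ε * lam ^ 2) := mul_le_mul_of_nonneg_left hfin (by positivity)
      _ = _ := by ring
  exact le_of_mul_le_mul_right h9 (by positivity)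

end Pool.Agent.Lib.MP_d470cf_nt
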