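import Pool.Agent.Lib.MP_d470cf_nt.Dickson

set_option autoImplicit false

open Finset Classical

namespace Pool.Agent.Lib.MP_d470cf_nt

/-- The residue condition on the trace `t` of a unit of norm `N`. -/
def ACond (N : ℤ) (p t : ℕ) : Prop :=
  ¬ (p : ℤ) ∣ (t : ℤ) ^ 2 - 4 * N ∧ (p : ℤ) ^ 2 ∣ V N p t - t

/-- number of admissible residues modulo `p` -/
noncomputable def nu (N : ℤ) (p : ℕ) : ℕ :=
  ((range p).filter (fun r : ℕ => ¬ (p : ℤ) ∣ (r : ℤ) ^ 2 - 4 * N)).card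

theorem disc_congr (p : ℕ) (N a b : ℤ) (h : (p : ℤ) ∣ a - b) :
    (p : ℤ) ∣ a ^ 2 - 4 * N ↔ (p : ℤ) ∣ b ^ 2 - 4 * N := by
  have h1 : (p : ℤ) ∣ (a ^ 2 - 4 * N) - (b ^ 2 - 4 * N) := by
    have : (a ^ 2 - 4 * N) - (b ^ 2 - 4 * N) = (a - b) * (a + b) := by ring
    rw [this]; exact dvd_mul_of_dvd_left h _
  constructor
  · intro h2; have := dvd_sub h2 h1; simpa using this
  · intro h2; have := dvd_add h1 h2; simpa using this

theorem ACond_congr (N : ℤ) (p : ℕ) (hp : p.Prime) (a b : ℕ) (h : ((p : ℤ) ^ 2) ∣ (a : ℤ) - b) :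
    ACond N p a ↔ ACond N p b := by
  have : Fact p.Prime := ⟨hp⟩
  have h1 : (p : ℤ) ∣ (a : ℤ) - b := (dvd_pow_self _ two_ne_zero).trans h
  unfold ACond
  rw [disc_congr p N a b h1]
  have h2 := V_congr p N a b h1
  have h3 : (p : ℤ) ^ 2 ∣ (V N p a - a) - (V N p b - b) := by
    have : (V N p a - a) - (V N p b - b) = (V N p a - V N p b) - ((a : ℤ) - b) := by ring
    rw [this]; exact dvd_sub h2 h
  have h4 : (p : ℤ) ^ 2 ∣ V N p a - a ↔ (p : ℤ) ^ 2 ∣ V N p b - b := by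
    constructor
    · intro h5; have := dvd_sub h5 h3; simpa using this
    · intro h5; have := dvd_add h3 h5; simpa using this
  rw [h4]

theorem ACond_periodic (N : ℤ) (p : ℕ) (hp : p.Prime) :
    Function.Periodic (ACond N p) (p ^ 2) := by
  intro t
  apply propext
  apply ACond_congr N p hp
  push_cast
  simp

theorem dvd_sub_emod (m : ℕ) (a : ℤ) : (m : ℤ) ∣ a - a % m := Int.dvd_self_sub_emod

theorem ACond_count (N : ℤ) (p : ℕ) (hp : p.Prime) :
    Nat.count (ACond N p) (p ^ 2) = nu N p := by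
  have : Fact p.Prime := ⟨hp⟩
  rw [Nat.count_eq_card_filter_range]
  unfold nu
  symm
  have hp0 : (0 : ℤ) < p := by exact_mod_cast hp.pos
  have hpp0 : (0 : ℤ) < (p : ℤ) ^ 2 := by positivity
  refine Finset.card_bij' (fun (r : ℕ) _ => (V N p (r : ℤ) % ((p : ℤ) ^ 2)).toNat)
    (fun (t : ℕ) _ => t % p) ?_ ?_ ?_ ?_
  · -- forward membership
    intro r hr
    rw [Finset.mem_filter, Finset.mem_range] at hr ⊢
    have h0 : 0 ≤ V N p r % ((p : ℤ) ^ 2) := Int.emod_nonneg _ hpp0.ne'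
    have h1 : V N p r % ((p : ℤ) ^ 2) < (p : ℤ) ^ 2 := Int.emod_lt_of_pos _ hpp0
    have hcast : (((V N p r % ((p : ℤ) ^ 2)).toNat : ℕ) : ℤ) = V N p r % ((p : ℤ) ^ 2) :=
      Int.toNat_of_nonneg h0
    have hc : (p : ℤ) ^ 2 ∣ V N p r - (((V N p r % ((p : ℤ) ^ 2)).toNat : ℕ) : ℤ) := by
      rw [hcast]; exact_mod_cast dvd_sub_emod (p ^ 2) (V N p r)
    have hc1 : (p : ℤ) ∣ V N p r - (((V N p r % ((p : ℤ) ^ 2)).toNat : ℕ) : ℤ) :=
      (dvd_pow_self _ two_ne_zero).trans hc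
    have hv := V_modEq p N r
    have hrt : (p : ℤ) ∣ (r : ℤ) - (((V N p r % ((p : ℤ) ^ 2)).toNat : ℕ) : ℤ) := by
      have := dvd_sub hc1 hv
      have e : V N p r - (((V N p r % ((p : ℤ) ^ 2)).toNat : ℕ) : ℤ) - (V N p r - r) =
        (r : ℤ) - (((V N p r % ((p : ℤ) ^ 2)).toNat : ℕ) : ℤ) := by ring
      rwa [e] at this
    refine ⟨?_, ?_, ?_⟩
    · have : (((V N p r % ((p : ℤ) ^ 2)).toNat : ℕ) : ℤ) < ((p ^ 2 : ℕ) : ℤ) := by
        rw [hcast]; exact_mod_cast h1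
      exact_mod_cast this
    · rw [← disc_congr p N r _ hrt]; exact hr.2
    · have h3 := V_congr p N r _ hrt
      have h4 := dvd_sub hc h3
      have e : V N p r - (((V N p r % ((p : ℤ) ^ 2)).toNat : ℕ) : ℤ) -
        (V N p r - V N p (((V N p r % ((p : ℤ) ^ 2)).toNat : ℕ) : ℤ)) =
        V N p (((V N p r % ((p : ℤ) ^ 2)).toNat : ℕ) : ℤ) - (((V N p r % ((p : ℤ) ^ 2)).toNat : ℕ) : ℤ) := by
        ring
      rwa [e] at h4
  · -- backward membership
    intro t ht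
    rw [Finset.mem_filter, Finset.mem_range] at ht ⊢
    refine ⟨Nat.mod_lt _ hp.pos, ?_⟩
    have h1 : (p : ℤ) ∣ (t : ℤ) - ((t % p : ℕ) : ℤ) := by
      push_cast; exact dvd_sub_emod p t
    rw [← disc_congr p N t _ h1]
    exact ht.2.1
  · -- left inverse
    intro r hr
    rw [Finset.mem_filter, Finset.mem_range] at hr
    have h0 : 0 ≤ V N p r % ((p : ℤ) ^ 2) := Int.emod_nonneg _ hpp0.ne'
    have hcast : (((V N p r % ((p : ℤ) ^ 2)).toNat : ℕ) : ℤ) = V N p r % ((p : ℤ) ^ 2) :=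
      Int.toNat_of_nonneg h0
    have hc : (p : ℤ) ^ 2 ∣ V N p r - (((V N p r % ((p : ℤ) ^ 2)).toNat : ℕ) : ℤ) := by
      rw [hcast]; exact_mod_cast dvd_sub_emod (p ^ 2) (V N p r)
    have hc1 : (p : ℤ) ∣ V N p r - (((V N p r % ((p : ℤ) ^ 2)).toNat : ℕ) : ℤ) :=
      (dvd_pow_self _ two_ne_zero).trans hc
    have hv := V_modEq p N r
    have hrt : (p : ℤ) ∣ (r : ℤ) - (((V N p r % ((p : ℤ) ^ 2)).toNat : ℕ) : ℤ) := by
      have := dvd_sub hc1 hv
      have e : V N p r - (((V N p r % ((p : ℤ) ^ 2)).toNat : ℕ) : ℤ) - (V N p r - r) =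
        (r : ℤ) - (((V N p r % ((p : ℤ) ^ 2)).toNat : ℕ) : ℤ) := by ring
      rwa [e] at this
    have h5 : ((V N p r % ((p : ℤ) ^ 2)).toNat : ℕ) ≡ r [MOD p] := by
      exact (Nat.modEq_iff_dvd.2 (by exact_mod_cast hrt))
    have h6 : (V N p r % ((p : ℤ) ^ 2)).toNat % p = r % p := h5
    rw [h6, Nat.mod_eq_of_lt hr.1]
  · -- right inverse
    intro t ht
    rw [Finset.mem_filter, Finset.mem_range] at ht
    have h1 : (p : ℤ) ∣ (t : ℤ) - ((t % p : ℕ) : ℤ) := by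
      push_cast; exact dvd_sub_emod p t
    have h2 := V_congr p N t _ h1
    have h3 := ht.2.2
    have h4 : (p : ℤ) ^ 2 ∣ V N p ((t % p : ℕ) : ℤ) - t := by
      have := dvd_sub h3 h2
      have e : V N p t - t - (V N p t - V N p ((t % p : ℕ) : ℤ)) = V N p ((t % p : ℕ) : ℤ) - t := by ring
      rwa [e] at this
    have h5 : V N p ((t % p : ℕ) : ℤ) % ((p : ℤ) ^ 2) = (t : ℤ) % ((p : ℤ) ^ 2) := by
      exact Int.emod_eq_emod_iff_emod_sub_eq_zero.2 (Int.emod_eq_zero_of_dvd h4)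
    rw [h5, Int.emod_eq_of_lt (by positivity) (by exact_mod_cast ht.1)]
    simp

theorem ACond_pair (N : ℤ) (p q : ℕ) (hp : p.Prime) (hq : q.Prime) (hpq : p ≠ q) :
    Nat.count (fun t => ACond N p t ∧ ACond N q t) (p ^ 2 * q ^ 2) ≤ nu N p * nu N q := by
  have hp2 : 0 < p ^ 2 := pow_pos hp.pos 2
  have hq2 : 0 < q ^ 2 := pow_pos hq.pos 2
  rw [Nat.count_eq_card_filter_range, ← ACond_count N p hp, ← ACond_count N q hq,
    Nat.count_eq_card_filter_range, Nat.count_eq_card_filter_range, ← Finset.card_product]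
  apply Finset.card_le_card_of_injOn (fun t => (t % p ^ 2, t % q ^ 2))
  · intro t ht
    have ht' := Finset.mem_filter.1 (Finset.mem_coe.1 ht)
    rw [Finset.mem_coe, Finset.mem_product, Finset.mem_filter, Finset.mem_filter, Finset.mem_range,
      Finset.mem_range]
    refine ⟨⟨Nat.mod_lt _ hp2, ?_⟩, ⟨Nat.mod_lt _ hq2, ?_⟩⟩
    · refine (ACond_congr N p hp t _ ?_).1 ht'.2.1
      have := dvd_sub_emod (p ^ 2) (t : ℤ)
      push_cast at this ⊢
      exact this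
    · refine (ACond_congr N q hq t _ ?_).1 ht'.2.2
      have := dvd_sub_emod (q ^ 2) (t : ℤ)
      push_cast at this ⊢
      exact this
  · intro a ha b hb hab
    have ha' := Finset.mem_range.1 (Finset.mem_filter.1 (Finset.mem_coe.1 ha)).1
    have hb' := Finset.mem_range.1 (Finset.mem_filter.1 (Finset.mem_coe.1 hb)).1
    simp only [Prod.mk.injEq] at hab
    have hcop : Nat.Coprime (p ^ 2) (q ^ 2) :=
      Nat.Coprime.pow 2 2 ((Nat.coprime_primes hp hq).2 hpq)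
    have h1 : a ≡ b [MOD p ^ 2 * q ^ 2] := (Nat.modEq_and_modEq_iff_modEq_mul hcop).1 ⟨hab.1, hab.2⟩
    exact Nat.ModEq.eq_of_lt_of_lt h1 ha' hb'

theorem nu_le (N : ℤ) (p : ℕ) : nu N p ≤ p := by
  unfold nu
  exact (Finset.card_filter_le _ _).trans (by simp)

theorem le_nu (N : ℤ) (p : ℕ) (hp : p.Prime) : p ≤ nu N p + 2 := by
  unfold nu
  have h1 := Finset.card_filter_add_card_filter_not (s := range p)
    (fun r : ℕ => ¬ (p : ℤ) ∣ (r : ℤ) ^ 2 - 4 * N)
  rw [Finset.card_range] at h1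
  have h2 : ((range p).filter (fun r : ℕ => ¬ ¬ (p : ℤ) ∣ (r : ℤ) ^ 2 - 4 * N)).card ≤ 2 := by
    simp only [not_not]
    by_cases hne : ((range p).filter (fun r : ℕ => (p : ℤ) ∣ (r : ℤ) ^ 2 - 4 * N)).Nonempty
    · obtain ⟨r0, hr0⟩ := hne
      rw [Finset.mem_filter, Finset.mem_range] at hr0
      have hsub : (range p).filter (fun r : ℕ => (p : ℤ) ∣ (r : ℤ) ^ 2 - 4 * N) ⊆
          {r0, (p - r0) % p} := by
        intro r hr
        rw [Finset.mem_filter, Finset.mem_range] at hr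
        have h3 : (p : ℤ) ∣ ((r : ℤ) - r0) * (r + r0) := by
          have := dvd_sub hr.2 hr0.2
          have e : (r : ℤ) ^ 2 - 4 * N - ((r0 : ℤ) ^ 2 - 4 * N) = ((r : ℤ) - r0) * (r + r0) := by ring
          rwa [e] at this
        rw [Finset.mem_insert, Finset.mem_singleton]
        rcases (Nat.prime_iff_prime_int.1 hp).dvd_or_dvd h3 with h4 | h4
        · left
          have : r0 ≡ r [MOD p] := Nat.modEq_iff_dvd.2 h4
          exact (Nat.ModEq.eq_of_lt_of_lt this hr0.1 hr.1).symm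
        · right
          have h5 : (p - r0) ≡ r [MOD p] := by
            apply Nat.modEq_iff_dvd.2
            rw [Nat.cast_sub hr0.1.le]
            have e : (r : ℤ) - ((p : ℤ) - r0) = (r + r0) - p := by ring
            rw [e]
            exact dvd_sub h4 (dvd_refl _)
          have h6 : (p - r0) % p = r % p := h5
          rw [h6, Nat.mod_eq_of_lt hr.1]
      exact (Finset.card_le_card hsub).trans Finset.card_le_two
    · rw [Finset.not_nonempty_iff_eq_empty] at hne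
      rw [hne]; simp
  omega

end Pool.Agent.Lib.MP_d470cf_nt
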