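import Mathlib

set_option autoImplicit false

open Polynomial

namespace Pool.Agent.Lib.MP_d470cf_nt

/-- Evaluation of the Dickson polynomial at `x + y` where `x * y = N`. -/
theorem dickson_eval_add {R : Type*} [CommRing R] (N x y : R) (h : x * y = N) :
    ∀ n, (dickson 1 N n).eval (x + y) = x ^ n + y ^ n
  | 0 => by
    simp only [pow_zero, dickson_zero]; norm_num
  | 1 => by simp only [eval_X, dickson_one, pow_one]
  | n + 2 => by
    simp only [eval_sub, eval_mul, dickson_eval_add N x y h _, eval_X, dickson_add_two,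
      eval_C]
    rw [← h]
    ring

theorem dickson_charP_field {F : Type*} [Field F] [IsAlgClosed F] (p : ℕ) [Fact p.Prime]
    [CharP F p] (N : F) (hN : N ^ p = N) : dickson 1 N p = X ^ p := by
  apply Polynomial.funext
  intro r
  -- find y with y^2 - r y + N = 0
  have hdeg : (X ^ 2 - C r * X + C N : F[X]).degree = 2 := by
    compute_degree!
  obtain ⟨y, hy⟩ := IsAlgClosed.exists_root (X ^ 2 - C r * X + C N : F[X]) (by rw [hdeg]; decide)
  have hy' : y ^ 2 - r * y + N = 0 := by
    simpa [IsRoot] using hy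
  have h1 : y * (r - y) = N := by linear_combination (-1 : F) * hy'
  have h2 := dickson_eval_add N y (r - y) h1 p
  have h3 : y + (r - y) = r := by ring
  rw [h3] at h2
  rw [h2, eval_pow, eval_X]
  rw [← add_pow_char, h3]

theorem dickson_zmod (p : ℕ) [hp : Fact p.Prime] (N : ZMod p) :
    dickson 1 N p = X ^ p := by
  have hinj : Function.Injective (algebraMap (ZMod p) (AlgebraicClosure (ZMod p))) :=
    (algebraMap (ZMod p) (AlgebraicClosure (ZMod p))).injective
  apply Polynomial.map_injective _ hinj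
  rw [map_dickson]
  have : CharP (AlgebraicClosure (ZMod p)) p := charP_of_injective_algebraMap hinj p
  rw [dickson_charP_field p]
  · simp
  · rw [← map_pow, ZMod.pow_card]

theorem dickson_int (p : ℕ) [hp : Fact p.Prime] (N : ℤ) :
    ∃ G : ℤ[X], dickson 1 N p = X ^ p + C (p : ℤ) * G := by
  have h : (dickson 1 N p - X ^ p : ℤ[X]).map (Int.castRingHom (ZMod p)) = 0 := by
    rw [Polynomial.map_sub, map_dickson, Polynomial.map_pow, map_X, dickson_zmod, sub_self]
  have h2 : C (p : ℤ) ∣ (dickson 1 N p - X ^ p : ℤ[X]) := by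
    rw [Polynomial.C_dvd_iff_dvd_coeff]
    intro i
    have := congrArg (fun q => coeff q i) h
    simp only [coeff_map, coeff_zero] at this
    exact (ZMod.intCast_zmod_eq_zero_iff_dvd _ p).1 this
  obtain ⟨G, hG⟩ := h2
  exact ⟨G, by linear_combination hG⟩

/-- The Dickson value `V_p(t, N)`. -/
noncomputable def V (N : ℤ) (n : ℕ) (t : ℤ) : ℤ := (dickson 1 N n).eval t

theorem V_congr (p : ℕ) [hp : Fact p.Prime] (N a b : ℤ) (h : (p : ℤ) ∣ a - b) :
    ((p : ℤ) ^ 2) ∣ V N p a - V N p b := by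
  obtain ⟨G, hG⟩ := dickson_int p N
  unfold V
  rw [hG]
  simp only [eval_add, eval_pow, eval_X, eval_mul, eval_C]
  have h1 : (p : ℤ) ^ 2 ∣ a ^ p - b ^ p := by
    have := dvd_sub_pow_of_dvd_sub (R := ℤ) (p := p) (a := a) (b := b) h 1
    simpa using this
  have h2 : (p : ℤ) ∣ G.eval a - G.eval b := h.trans (sub_dvd_eval_sub a b G)
  obtain ⟨c, hc⟩ := h1
  obtain ⟨d, hd⟩ := h2
  refine ⟨c + d, ?_⟩
  linear_combination hc + (p : ℤ) * hd

theorem V_modEq (p : ℕ) [hp : Fact p.Prime] (N a : ℤ) :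
    (p : ℤ) ∣ V N p a - a := by
  obtain ⟨G, hG⟩ := dickson_int p N
  unfold V
  rw [hG]
  simp only [eval_add, eval_pow, eval_X, eval_mul, eval_C]
  have h1 : (p : ℤ) ∣ a ^ p - a := by
    rw [← ZMod.intCast_zmod_eq_zero_iff_dvd]
    push_cast
    rw [ZMod.pow_card, sub_self]
  obtain ⟨c, hc⟩ := h1
  refine ⟨c + G.eval a, ?_⟩
  linear_combination hc

end Pool.Agent.Lib.MP_d470cf_nt
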