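import Pool.Agent.Lib.MP_d470cf_nt.Fields

set_option autoImplicit false

open NumberField Module NumberField.Units IntermediateField

namespace Pool.Agent.Lib.MP_d470cf_nt

/-- the fundamental unit `> 1` of a real quadratic field as a real number -/
noncomputable def fu (K : RealQuadraticField) : ℝ := Real.exp (regulator K.1)

noncomputable def tr (K : RealQuadraticField) : ℤ := (field_data K).choose
noncomputable def nm (K : RealQuadraticField) : ℤ := (field_data K).choose_spec.choose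

theorem fu_spec (K : RealQuadraticField) :
    1 < fu K ∧ (nm K = 1 ∨ nm K = -1) ∧ (fu K) ^ 2 - tr K * fu K + nm K = 0 ∧
      fu K ∈ K.1 ∧
      (∀ x : ℝ, x ∈ K.1 → x ≠ 0 → IsIntegral ℤ x → IsIntegral ℤ x⁻¹ →
        ∃ n : ℤ, x = fu K ^ n ∨ x = -fu K ^ n) ∧
      (∀ p : ℕ, p.Prime → p ≠ 2 → ¬ (p : ℤ) ∣ tr K ^ 2 - 4 * nm K →
        (p : ℤ) ^ 2 ∣ V (nm K) p (tr K) - tr K → IsWSS K.1 p) :=
  (field_data K).choose_spec.choose_spec

theorem tr_bounds (a : ℝ) (ha : 1 < a) (t N : ℤ) (hN : N = 1 ∨ N = -1)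
    (h : a ^ 2 - t * a + N = 0) : a - 1 < t ∧ (t : ℝ) < a + 1 := by
  have ha0 : 0 < a := by linarith
  have h1 : (t : ℝ) * a = a ^ 2 + N := by linarith
  constructor
  · by_contra hcon
    push Not at hcon
    have h2 : (t : ℝ) * a ≤ (a - 1) * a := mul_le_mul_of_nonneg_right hcon ha0.le
    rcases hN with h3 | h3
    · rw [h1, h3] at h2; push_cast at h2; nlinarith
    · rw [h1, h3] at h2; push_cast at h2; nlinarith
  · by_contra hcon
    push Not at hcon
    have h2 : (a + 1) * a ≤ (t : ℝ) * a := mul_le_mul_of_nonneg_right hcon ha0.le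
    rcases hN with h3 | h3
    · rw [h1, h3] at h2; push_cast at h2; nlinarith
    · rw [h1, h3] at h2; push_cast at h2; nlinarith

theorem unit_lower (a : ℝ) (ha : 1 < a) (t N : ℤ) (hN : N = 1 ∨ N = -1)
    (h : a ^ 2 - t * a + N = 0) : 3 / 2 < a := by
  have hb := tr_bounds a ha t N hN h
  have ht : 1 ≤ t := by
    have : (0 : ℝ) < t := by linarith
    exact_mod_cast this
  by_contra hcon
  push Not at hcon
  rcases hN with h3 | h3
  · -- t ≥ 3 impossible
    have h4 : (t : ℝ) < 3 := by linarith [hb.2]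
    have h5 : t < 3 := by exact_mod_cast h4
    have h6 : t = 1 ∨ t = 2 := by omega
    rw [h3] at h
    push_cast at h
    rcases h6 with h6 | h6
    · rw [h6] at h; push_cast at h; nlinarith
    · rw [h6] at h; push_cast at h; nlinarith
  · rw [h3] at h
    push_cast at h
    have h4 : (1 : ℝ) ≤ t := by exact_mod_cast ht
    nlinarith

theorem one_le_tr (K : RealQuadraticField) : 1 ≤ tr K := by
  obtain ⟨h1, h2, h3, -⟩ := fu_spec K
  have := tr_bounds _ h1 _ _ h2 h3
  have h4 : (0 : ℝ) < tr K := by linarith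
  exact_mod_cast h4

theorem fu_injective (K K' : RealQuadraticField) (h : fu K = fu K') : K = K' := by
  obtain ⟨h1, h2, h3, h4, -⟩ := fu_spec K
  obtain ⟨h1', h2', h3', h4', -⟩ := fu_spec K'
  apply Subtype.ext
  rw [eq_adjoin K (fu K) h4 (not_rat_of_quad _ h1 _ _ h2 h3),
    eq_adjoin K' (fu K') h4' (not_rat_of_quad _ h1' _ _ h2' h3'), h]

theorem tr_nm_injective (K K' : RealQuadraticField) (h : (tr K).toNat = (tr K').toNat)
    (h' : nm K = nm K') : K = K' := by
  obtain ⟨h1, h2, h3, h4, -⟩ := fu_spec K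
  obtain ⟨h1', h2', h3', h4', -⟩ := fu_spec K'
  have ht := one_le_tr K
  have ht' := one_le_tr K'
  have htt : tr K = tr K' := by omega
  apply fu_injective
  rw [← htt, ← h'] at h3'
  exact quad_unique _ _ h1 h1' _ _ h2 h3 h3'

/-- the unit of norm one with trace `t` -/
noncomputable def ut (t : ℕ) : ℝ := (t + Real.sqrt ((t : ℝ) ^ 2 - 4)) / 2

theorem ut_spec (t : ℕ) (ht : 3 ≤ t) :
    1 < ut t ∧ ut t < t ∧ (ut t) ^ 2 - ((t : ℤ) : ℝ) * ut t + ((1 : ℤ) : ℝ) = 0 := by
  have ht' : (3 : ℝ) ≤ t := by exact_mod_cast ht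
  have h0 : 0 ≤ (t : ℝ) ^ 2 - 4 := by nlinarith
  have hs := Real.sq_sqrt h0
  have hs0 := Real.sqrt_nonneg ((t : ℝ) ^ 2 - 4)
  have hs1 : Real.sqrt ((t : ℝ) ^ 2 - 4) < t := by
    rw [Real.sqrt_lt' (by linarith)]; linarith
  unfold ut
  refine ⟨by linarith, by linarith, ?_⟩
  push_cast
  nlinarith

theorem ut_inv (t : ℕ) (ht : 3 ≤ t) : (ut t)⁻¹ = t - ut t := by
  obtain ⟨h1, h2, h3⟩ := ut_spec t ht
  have : ut t * (t - ut t) = 1 := by push_cast at h3; linarith
  exact inv_eq_of_mul_eq_one_right this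

theorem ut_integral (t : ℕ) (ht : 3 ≤ t) : IsIntegral ℤ (ut t) := by
  obtain ⟨h1, h2, h3⟩ := ut_spec t ht
  refine ⟨Polynomial.X ^ 2 - Polynomial.C (t : ℤ) * Polynomial.X + Polynomial.C 1, ?_, ?_⟩
  · monicity!
  · simp only [Polynomial.eval₂_add, Polynomial.eval₂_sub, Polynomial.eval₂_mul,
        Polynomial.eval₂_pow, Polynomial.eval₂_X, Polynomial.eval₂_C]
    simpa using h3

theorem finrank_adjoin_ut (t : ℕ) (ht : 3 ≤ t) : finrank ℚ ℚ⟮ut t⟯ = 2 := by
  obtain ⟨h1, h2, h3⟩ := ut_spec t ht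
  have hirr := not_rat_of_quad (ut t) h1 t 1 (Or.inl rfl) h3
  have hint : IsIntegral ℚ (ut t) := (ut_integral t ht).tower_top
  rw [IntermediateField.adjoin.finrank hint]
  have hle : (minpoly ℚ (ut t)).natDegree ≤ 2 := by
    have hroot : Polynomial.aeval (ut t) (Polynomial.X ^ 2 - Polynomial.C (t : ℚ) * Polynomial.X + Polynomial.C 1) = 0 := by
      simp only [map_add, map_sub, map_mul, map_pow, Polynomial.aeval_X, Polynomial.aeval_C]
      simpa using h3
    have hmon : (Polynomial.X ^ 2 - Polynomial.C (t : ℚ) * Polynomial.X + Polynomial.C 1).Monic := by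
      monicity!
    have hdeg : (Polynomial.X ^ 2 - Polynomial.C (t : ℚ) * Polynomial.X + Polynomial.C 1).natDegree = 2 := by
      compute_degree!
    have := Polynomial.natDegree_le_of_dvd (minpoly.dvd ℚ (ut t) hroot) hmon.ne_zero
    omega
  have hpos := minpoly.natDegree_pos hint
  have hne : (minpoly ℚ (ut t)).natDegree ≠ 1 := by
    intro h
    have := minpoly.natDegree_eq_one_iff.1 h
    obtain ⟨q, hq⟩ := this
    exact hirr q (by simpa using hq)
  omega

/-- the field generated by `ut t` -/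
noncomputable def Kt (t : ℕ) (ht : 3 ≤ t) : RealQuadraticField := ⟨ℚ⟮ut t⟯, finrank_adjoin_ut t ht⟩

theorem ut_eq_pow (t : ℕ) (ht : 3 ≤ t) : ∃ n : ℕ, 1 ≤ n ∧ ut t = fu (Kt t ht) ^ n := by
  obtain ⟨h1, h2, h3⟩ := ut_spec t ht
  obtain ⟨g1, g2, g3, g4, g5, -⟩ := fu_spec (Kt t ht)
  have hmem : ut t ∈ (Kt t ht).1 := mem_adjoin_simple_self ℚ (ut t)
  have hi := ut_integral t ht
  have hi' : IsIntegral ℤ (ut t)⁻¹ := by
    rw [ut_inv t ht]
    exact (isIntegral_natCast t).sub hi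
  obtain ⟨n, hn⟩ := g5 (ut t) hmem (by linarith) hi hi'
  have hpos : 0 < fu (Kt t ht) ^ n := zpow_pos (by linarith) n
  have hn' : ut t = fu (Kt t ht) ^ n := by
    rcases hn with hn | hn
    · exact hn
    · exfalso; linarith
  have hnpos : 0 < n := by
    by_contra hcon
    push Not at hcon
    have : fu (Kt t ht) ^ n ≤ 1 := zpow_le_one_of_nonpos₀ g1.le hcon
    linarith
  obtain ⟨m, hm⟩ := Int.eq_ofNat_of_zero_le hnpos.le
  refine ⟨m, by omega, ?_⟩
  rw [hn', hm, zpow_natCast]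

end Pool.Agent.Lib.MP_d470cf_nt
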