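import Pool.Agent.Lib.MP_d470cf_nt.FieldCount
import Pool.Agent.Lib.MP_d470cf_nt.Bad

set_option autoImplicit false

open NumberField Module NumberField.Units IntermediateField Finset Classical Filter

namespace Pool.Agent.Lib.MP_d470cf_nt

theorem fu_le_iff (K : RealQuadraticField) (Y : ℝ) : regulator K.1 ≤ Y ↔ fu K ≤ Real.exp Y := by
  unfold fu
  rw [Real.exp_le_exp]

theorem tr_lt (K : RealQuadraticField) (Y : ℝ) (h : regulator K.1 ≤ Y) :
    (tr K).toNat < ⌊Real.exp Y⌋₊ + 2 := by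
  obtain ⟨h1, h2, h3, -⟩ := fu_spec K
  have hb := tr_bounds _ h1 _ _ h2 h3
  have h4 := (fu_le_iff K Y).1 h
  have h5 := Nat.lt_floor_add_one (Real.exp Y)
  have h6 : (tr K : ℝ) < (⌊Real.exp Y⌋₊ : ℝ) + 2 := by linarith [hb.2]
  have h7 : tr K < (⌊Real.exp Y⌋₊ : ℤ) + 2 := by exact_mod_cast h6
  have := one_le_tr K
  omega

/-- fields with regulator at most `Y` -/
def FY (Y : ℝ) : Set RealQuadraticField := {K | regulator K.1 ≤ Y}

theorem FY_finite (Y : ℝ) : (FY Y).Finite := by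
  apply Set.Finite.of_injOn (f := fun K : RealQuadraticField => ((tr K).toNat, nm K))
    (t := ↑((range (⌊Real.exp Y⌋₊ + 2)) ×ˢ ({1, -1} : Finset ℤ)))
  · intro K hK
    rw [Finset.mem_coe, Finset.mem_product, Finset.mem_range]
    refine ⟨tr_lt K Y hK, ?_⟩
    obtain ⟨h1, h2, h3, -⟩ := fu_spec K
    simpa using h2
  · intro K _ K' _ h
    simp only [Prod.mk.injEq] at h
    exact tr_nm_injective K K' h.1 h.2
  · exact Finset.finite_toSet _

/-- traces with few admissible primes -/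
noncomputable def badset (N : ℤ) (P T : ℕ) (c : ℝ) : Finset ℕ :=
  (range T).filter (fun t => ((#{p ∈ oddPrimes P | ACond N p t} : ℕ) : ℝ) <
        c * Real.log (Real.log ((P + 1 : ℕ) : ℝ)))

/-- The field has at least `c log log x` Wall-Sun-Sun primes up to `x`. -/
def Good (c x : ℝ) (K : RealQuadraticField) : Prop :=
  c * Real.log (Real.log x) ≤ (({p : ℕ | (p : ℝ) ≤ x ∧ IsWSS K.1 p}).ncard : ℝ)

theorem bad_ncard_le (c : ℝ) (hc : 0 < c) (Y x : ℝ) (hx : 2 ≤ x) :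
    ({K ∈ FY Y | ¬ Good c x K}).ncard ≤ (badset 1 ⌊x⌋₊ (⌊Real.exp Y⌋₊ + 2) c).card +
      (badset (-1) ⌊x⌋₊ (⌊Real.exp Y⌋₊ + 2) c).card := by
  set T := ⌊Real.exp Y⌋₊ + 2 with hT
  have h0 : ({K ∈ FY Y | ¬ Good c x K}).ncard ≤
      ((((badset 1 ⌊x⌋₊ T c) ×ˢ ({1} : Finset ℤ)) ∪ ((badset (-1) ⌊x⌋₊ T c) ×ˢ ({-1} : Finset ℤ)) :
        Finset (ℕ × ℤ)) : Set (ℕ × ℤ)).ncard := by
    apply Set.ncard_le_ncard_of_injOn (fun K : RealQuadraticField => ((tr K).toNat, nm K))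
    · intro K hK
      obtain ⟨hKY, hbad⟩ := hK
      obtain ⟨h1, h2, h3, h4, h5, h6⟩ := fu_spec K
      have hlt := tr_lt K Y hKY
      have htr := one_le_tr K
      have hcast : (((tr K).toNat : ℕ) : ℤ) = tr K := Int.toNat_of_nonneg (by omega)
      have hmem : (tr K).toNat ∈ badset (nm K) ⌊x⌋₊ T c := by
        unfold badset
        rw [Finset.mem_filter, Finset.mem_range]
        refine ⟨hlt, ?_⟩
        by_contra hcon
        push Not at hcon
        apply hbad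
        unfold Good
        have hsub : (({p ∈ oddPrimes ⌊x⌋₊ | ACond (nm K) p (tr K).toNat} : Finset ℕ) : Set ℕ) ⊆
            {p : ℕ | (p : ℝ) ≤ x ∧ IsWSS K.1 p} := by
          intro p hp
          rw [Finset.mem_coe, Finset.mem_filter] at hp
          obtain ⟨hp1, hp2, hp3⟩ := hp
          rw [hcast] at hp2 hp3
          obtain ⟨q1, q2, q3⟩ := mem_oddPrimes.1 hp1
          refine ⟨?_, h6 p q2 q1 hp2 hp3⟩
          exact (Nat.le_floor_iff (by linarith)).1 q3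
        have hfin : ({p : ℕ | (p : ℝ) ≤ x ∧ IsWSS K.1 p}).Finite := by
          apply (Set.finite_Iic ⌊x⌋₊).subset
          intro p hp
          exact Nat.le_floor hp.1
        have hcard := Set.ncard_le_ncard hsub hfin
        rw [Set.ncard_coe_finset] at hcard
        have hcard' : ((#{p ∈ oddPrimes ⌊x⌋₊ | ACond (nm K) p (tr K).toNat} : ℕ) : ℝ) ≤
          (({p : ℕ | (p : ℝ) ≤ x ∧ IsWSS K.1 p}).ncard : ℝ) := by exact_mod_cast hcard
        refine le_trans ?_ (hcon.trans hcard')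
        apply mul_le_mul_of_nonneg_left _ hc.le
        apply Real.log_le_log (Real.log_pos (by linarith))
        apply Real.log_le_log (by linarith)
        push_cast
        exact (Nat.lt_floor_add_one x).le
      rw [Finset.mem_coe, Finset.mem_union, Finset.mem_product, Finset.mem_product]
      rcases h2 with h2 | h2
      · left; rw [h2] at hmem; exact ⟨hmem, by rw [h2]; simp⟩
      · right; rw [h2] at hmem; exact ⟨hmem, by rw [h2]; simp⟩
    · intro K _ K' _ h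
      simp only [Prod.mk.injEq] at h
      exact tr_nm_injective K K' h.1 h.2
  refine h0.trans ?_
  rw [Set.ncard_coe_finset]
  refine (Finset.card_union_le _ _).trans ?_
  rw [Finset.card_product, Finset.card_product]
  simp

/-- exceptional traces: `ut t` is a proper power of the fundamental unit -/
theorem exc_card (M : ℕ) :
    ((Finset.Icc 3 M).filter (fun t => ∃ K : RealQuadraticField, ∃ n : ℕ, 2 ≤ n ∧ ut t = fu K ^ n)).card ≤
      (⌊Real.sqrt M⌋₊ + 2) * 2 * (⌊3 * Real.log M⌋₊ + 1) := by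
  set E := (Finset.Icc 3 M).filter
    (fun t => ∃ K : RealQuadraticField, ∃ n : ℕ, 2 ≤ n ∧ ut t = fu K ^ n) with hE
  have hex : ∀ t : ℕ, ∃ Kn : RealQuadraticField × ℕ, t ∈ E → 2 ≤ Kn.2 ∧ ut t = fu Kn.1 ^ Kn.2 := by
    intro t
    by_cases ht : t ∈ E
    · obtain ⟨K, n, h1, h2⟩ := (Finset.mem_filter.1 ht).2
      exact ⟨⟨K, n⟩, fun _ => ⟨h1, h2⟩⟩
    · exact ⟨⟨Kt 3 (by omega), 0⟩, fun h => absurd h ht⟩
  choose g hg using hex
  have h1 : E.card ≤ ((range (⌊Real.sqrt M⌋₊ + 2)) ×ˢ ({1, -1} : Finset ℤ) ×ˢ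
      (range (⌊3 * Real.log M⌋₊ + 1))).card := by
    apply Finset.card_le_card_of_injOn (fun t => ((tr (g t).1).toNat, nm (g t).1, (g t).2))
    · intro t ht
      have ht' := Finset.mem_coe.1 ht
      obtain ⟨hn2, hut⟩ := hg t ht'
      have hIcc := Finset.mem_Icc.1 (Finset.mem_filter.1 ht').1
      obtain ⟨u1, u2, u3⟩ := ut_spec t hIcc.1
      obtain ⟨k1, k2, k3, -⟩ := fu_spec (g t).1
      have hMR : (t : ℝ) ≤ M := by exact_mod_cast hIcc.2
      have hpow : fu (g t).1 ^ (g t).2 ≤ M := by rw [← hut]; linarith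
      have hsq : fu (g t).1 ^ 2 ≤ M := (pow_le_pow_right₀ k1.le hn2).trans hpow
      have hsqrt : fu (g t).1 ≤ Real.sqrt M := Real.le_sqrt_of_sq_le hsq
      have hb := tr_bounds _ k1 _ _ k2 k3
      rw [Finset.mem_coe, Finset.mem_product, Finset.mem_product, Finset.mem_range, Finset.mem_range]
      refine ⟨?_, by simpa using k2, ?_⟩
      · have h5 := Nat.lt_floor_add_one (Real.sqrt M)
        have h6 : (tr (g t).1 : ℝ) < (⌊Real.sqrt M⌋₊ : ℝ) + 2 := by linarith [hb.2]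
        have h7 : tr (g t).1 < (⌊Real.sqrt M⌋₊ : ℤ) + 2 := by exact_mod_cast h6
        have := one_le_tr (g t).1
        show (tr (g t).1).toNat < _
        omega
      · show (g t).2 < _
        have h8 : 3 / 2 < fu (g t).1 := unit_lower _ k1 _ _ k2 k3
        have h9 : ((g t).2 : ℝ) * Real.log (3 / 2) ≤ Real.log M := by
          rw [← Real.log_pow]
          apply Real.log_le_log (by positivity)
          exact (pow_le_pow_left₀ (by norm_num) h8.le _).trans hpow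
        have h10 : (1 : ℝ) / 3 ≤ Real.log (3 / 2) := by
          have := Real.one_sub_inv_le_log_of_pos (show (0 : ℝ) < 3 / 2 by norm_num)
          norm_num at this ⊢
          linarith
        have h11 : ((g t).2 : ℝ) ≤ 3 * Real.log M := by
          have : ((g t).2 : ℝ) * (1 / 3) ≤ ((g t).2 : ℝ) * Real.log (3 / 2) :=
            mul_le_mul_of_nonneg_left h10 (by positivity)
          linarith
        have := Nat.le_floor h11
        omega
    · intro t ht t' ht' heq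
      have ht1 := Finset.mem_coe.1 ht
      have ht2 := Finset.mem_coe.1 ht'
      obtain ⟨hn2, hut⟩ := hg t ht1
      obtain ⟨hn2', hut'⟩ := hg t' ht2
      simp only [Prod.mk.injEq] at heq
      obtain ⟨e1, e2, e3⟩ := heq
      have hK : (g t).1 = (g t').1 := tr_nm_injective _ _ e1 e2
      rw [hK, e3, ← hut'] at hut
      have i1 := ut_inv t (Finset.mem_Icc.1 (Finset.mem_filter.1 ht1).1).1
      have i2 := ut_inv t' (Finset.mem_Icc.1 (Finset.mem_filter.1 ht2).1).1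
      rw [hut] at i1
      rw [i1] at i2
      have : (t : ℝ) = t' := by linarith
      exact_mod_cast this
  refine h1.trans (le_of_eq ?_)
  rw [Finset.card_product, Finset.card_product, Finset.card_range, Finset.card_range,
    Finset.card_pair (by decide), mul_assoc]

theorem FY_ncard_ge (Y : ℝ) (M : ℕ) (hM : 3 ≤ M) (hMY : (M : ℝ) ≤ Real.exp Y) :
    M - 2 ≤ (FY Y).ncard + (⌊Real.sqrt M⌋₊ + 2) * 2 * (⌊3 * Real.log M⌋₊ + 1) := by
  have h1 := exc_card M
  have h2 := Finset.card_filter_add_card_filter_not (s := Finset.Icc 3 M)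
    (fun t => ∃ K : RealQuadraticField, ∃ n : ℕ, 2 ≤ n ∧ ut t = fu K ^ n)
  rw [Nat.card_Icc] at h2
  have h3 : ((Finset.Icc 3 M).filter
      (fun t => ¬ ∃ K : RealQuadraticField, ∃ n : ℕ, 2 ≤ n ∧ ut t = fu K ^ n)).card ≤
      (FY Y).ncard := by
    have hex : ∀ t : ℕ, ∃ K : RealQuadraticField, t ∈ (Finset.Icc 3 M).filter
      (fun t => ¬ ∃ K : RealQuadraticField, ∃ n : ℕ, 2 ≤ n ∧ ut t = fu K ^ n) → ut t = fu K := by
      intro t
      by_cases ht : t ∈ (Finset.Icc 3 M).filter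
        (fun t => ¬ ∃ K : RealQuadraticField, ∃ n : ℕ, 2 ≤ n ∧ ut t = fu K ^ n)
      · have h3 := (Finset.mem_Icc.1 (Finset.mem_filter.1 ht).1).1
        refine ⟨Kt t h3, fun _ => ?_⟩
        obtain ⟨n, hn1, hn⟩ := ut_eq_pow t h3
        have hn2 : n = 1 := by
          by_contra hne
          exact (Finset.mem_filter.1 ht).2 ⟨Kt t h3, n, by omega, hn⟩
        rw [hn2, pow_one] at hn
        exact hn
      · exact ⟨Kt 3 (by omega), fun h => absurd h ht⟩
    choose g hg using hex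
    rw [← Set.ncard_coe_finset]
    refine Set.ncard_le_ncard_of_injOn g ?_ ?_ (FY_finite Y)
    · intro t ht
      have ht' := Finset.mem_coe.1 ht
      have hIcc := Finset.mem_Icc.1 (Finset.mem_filter.1 ht').1
      obtain ⟨u1, u2, u3⟩ := ut_spec t hIcc.1
      have hMR : (t : ℝ) ≤ M := by exact_mod_cast hIcc.2
      show regulator (g t).1 ≤ Y
      rw [fu_le_iff, ← hg t ht']
      linarith
    · intro t ht t' ht' heq
      have ht1 := Finset.mem_coe.1 ht
      have ht2 := Finset.mem_coe.1 ht'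
      have e1 := hg t ht1
      have e2 := hg t' ht2
      rw [heq, ← e2] at e1
      have i1 := ut_inv t (Finset.mem_Icc.1 (Finset.mem_filter.1 ht1).1).1
      have i2 := ut_inv t' (Finset.mem_Icc.1 (Finset.mem_filter.1 ht2).1).1
      rw [e1] at i1
      rw [i1] at i2
      have : (t : ℝ) = t' := by linarith
      exact_mod_cast this
  omega

theorem FY_ge_quarter : ∃ Y0 : ℝ, ∀ Y : ℝ, Y0 ≤ Y →
    Real.exp Y / 4 ≤ ((FY Y).ncard : ℝ) := by
  refine ⟨Real.log (110 ^ 4), fun Y hY => ?_⟩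
  have hexp : (110 : ℝ) ^ 4 ≤ Real.exp Y := by
    rw [← Real.exp_log (show (0 : ℝ) < 110 ^ 4 by norm_num)]
    exact Real.exp_le_exp.2 hY
  set M := ⌊Real.exp Y⌋₊ with hM
  have hMY : (M : ℝ) ≤ Real.exp Y := Nat.floor_le (Real.exp_pos Y).le
  have hMY2 : Real.exp Y < M + 1 := Nat.lt_floor_add_one _
  have hM4 : 110 ^ 4 ≤ M := Nat.le_floor (by exact_mod_cast hexp)
  have hM4' : (110 : ℝ) ^ 4 ≤ M := by exact_mod_cast hM4
  have h1 := FY_ncard_ge Y M (by omega) hMY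
  have h2 : (M : ℝ) - 2 ≤ (FY Y).ncard +
      ((⌊Real.sqrt M⌋₊ : ℝ) + 2) * 2 * ((⌊3 * Real.log M⌋₊ : ℝ) + 1) := by
    have h3 : M ≤ (FY Y).ncard + (⌊Real.sqrt M⌋₊ + 2) * 2 * (⌊3 * Real.log M⌋₊ + 1) + 2 := by
      omega
    have h4 : (M : ℝ) ≤ (FY Y).ncard +
      ((⌊Real.sqrt M⌋₊ : ℝ) + 2) * 2 * ((⌊3 * Real.log M⌋₊ : ℝ) + 1) + 2 := by exact_mod_cast h3
    linarith
  -- s = M^{1/4}
  obtain ⟨s, hs⟩ : ∃ s : ℝ, s = Real.sqrt (Real.sqrt M) := ⟨_, rfl⟩
  have hs0 : 0 ≤ s := by rw [hs]; exact Real.sqrt_nonneg _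
  have hs2 : s ^ 2 = Real.sqrt M := by rw [hs]; exact Real.sq_sqrt (Real.sqrt_nonneg _)
  have hs4 : s ^ 4 = M := by
    have : s ^ 4 = (s ^ 2) ^ 2 := by ring
    rw [this, hs2]; exact Real.sq_sqrt (by positivity)
  have hs110 : 110 ≤ s := by
    by_contra hcon
    push Not at hcon
    have : s ^ 4 < 110 ^ 4 := pow_lt_pow_left₀ hcon hs0 (by norm_num)
    linarith
  have hlog : Real.log M ≤ 4 * s := by
    rw [← hs4, Real.log_pow]
    have := Real.log_le_sub_one_of_pos (show 0 < s by linarith)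
    push_cast
    linarith
  have hf1 : (⌊Real.sqrt M⌋₊ : ℝ) ≤ s ^ 2 := by
    rw [hs2]; exact Nat.floor_le (Real.sqrt_nonneg _)
  have hlog0 : 0 ≤ Real.log M := Real.log_nonneg (by linarith)
  have hf2 : (⌊3 * Real.log M⌋₊ : ℝ) ≤ 12 * s := by
    have := Nat.floor_le (show 0 ≤ 3 * Real.log M by positivity)
    linarith
  have h5 : ((⌊Real.sqrt M⌋₊ : ℝ) + 2) * 2 * ((⌊3 * Real.log M⌋₊ : ℝ) + 1) ≤
      (s ^ 2 + 2) * 2 * (12 * s + 1) := by
    apply mul_le_mul _ _ (by positivity) (by positivity)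
    · linarith
    · linarith
  have h6 : (s ^ 2 + 2) * 2 * (12 * s + 1) ≤ 28 * s ^ 3 := by nlinarith [pow_pos (show 0 < s by linarith) 2]
  have h7 : 28 * s ^ 3 ≤ s ^ 4 / 3 := by nlinarith [pow_pos (show 0 < s by linarith) 3]
  rw [hs4] at h7
  have h8 : (M : ℝ) * (2 / 3) - 2 ≤ (FY Y).ncard := by linarith
  linarith

/-- Main theorem, stated with `FY` and `Good`. -/
theorem main_tendsto (c : ℝ) (hc0 : 0 < c) (hc1 : c < 1) (P : ℝ → ℝ)
    (hP : Tendsto P atTop atTop) (hP4 : ∀ᶠ Y in atTop, P Y ≤ Real.exp (Y / 4)) :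
    Tendsto (fun Y : ℝ => (({K ∈ FY Y | Good c (P Y) K}).ncard : ℝ) / ((FY Y).ncard : ℝ))
      atTop (nhds 1) := by
  rw [Metric.tendsto_nhds]
  intro ε hε
  obtain ⟨P1, hT1⟩ := bad_small 1 c hc0 hc1 (ε / 32) (by positivity)
  obtain ⟨P2, hT2⟩ := bad_small (-1) c hc0 hc1 (ε / 32) (by positivity)
  obtain ⟨Y0, hY0⟩ := FY_ge_quarter
  filter_upwards [hP4, hP.eventually_ge_atTop ((max 2 (max P1 P2) : ℕ) : ℝ),
    eventually_ge_atTop Y0, eventually_ge_atTop (Real.log 2)] with Y hPY hPge hYY0 hYlog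
  have hexp2 : 2 ≤ Real.exp Y := by
    rw [← Real.log_le_iff_le_exp (by norm_num)]; exact hYlog
  have hP2 : (2 : ℝ) ≤ P Y := by
    refine le_trans ?_ hPge
    exact_mod_cast le_max_left 2 (max P1 P2)
  have hfl : max 2 (max P1 P2) ≤ ⌊P Y⌋₊ := Nat.le_floor hPge
  set T := ⌊Real.exp Y⌋₊ + 2 with hT
  have hPT : ⌊P Y⌋₊ ^ 4 ≤ T := by
    have h1 : (⌊P Y⌋₊ : ℝ) ≤ Real.exp (Y / 4) := (Nat.floor_le (by linarith)).trans hPY
    have h2 : (⌊P Y⌋₊ : ℝ) ^ 4 ≤ Real.exp Y := by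
      calc (⌊P Y⌋₊ : ℝ) ^ 4 ≤ Real.exp (Y / 4) ^ 4 := pow_le_pow_left₀ (by positivity) h1 4
        _ = Real.exp Y := by rw [← Real.exp_nat_mul]; congr 1; push_cast; ring
    have h3 := Nat.lt_floor_add_one (Real.exp Y)
    have h4 : ((⌊P Y⌋₊ ^ 4 : ℕ) : ℝ) ≤ (T : ℝ) := by
      rw [hT]; push_cast; linarith
    exact_mod_cast h4
  have hTle : (T : ℝ) ≤ 2 * Real.exp Y := by
    have := Nat.floor_le (Real.exp_pos Y).le
    rw [hT]; push_cast; linarith
  have b1 := hT1 ⌊P Y⌋₊ T (((le_max_left _ _).trans (le_max_right _ _)).trans hfl) hPT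
  have b2 := hT2 ⌊P Y⌋₊ T (((le_max_right _ _).trans (le_max_right _ _)).trans hfl) hPT
  have hbad := bad_ncard_le c hc0 Y (P Y) hP2
  have hF := hY0 Y hYY0
  have hFpos : (0 : ℝ) < (FY Y).ncard := by
    have := Real.exp_pos Y
    linarith
  have hsplit : (FY Y).ncard =
      ({K ∈ FY Y | Good c (P Y) K}).ncard + ({K ∈ FY Y | ¬ Good c (P Y) K}).ncard := by
    have hfin := FY_finite Y
    have hdisj : Disjoint {K ∈ FY Y | Good c (P Y) K} {K ∈ FY Y | ¬ Good c (P Y) K} := by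
      rw [Set.disjoint_left]
      intro K h1 h2
      exact h2.2 h1.2
    rw [← Set.ncard_union_eq hdisj (hfin.subset (fun K hK => hK.1))
      (hfin.subset (fun K hK => hK.1))]
    congr 1
    ext K
    constructor
    · intro hK
      by_cases h : Good c (P Y) K
      · left; exact ⟨hK, h⟩
      · right; exact ⟨hK, h⟩
    · rintro (hK | hK)
      · exact hK.1
      · exact hK.1
  have hbadR : (({K ∈ FY Y | ¬ Good c (P Y) K}).ncard : ℝ) ≤ ε / 16 * T := by
    have h1 : (({K ∈ FY Y | ¬ Good c (P Y) K}).ncard : ℝ) ≤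
      ((badset 1 ⌊P Y⌋₊ T c).card : ℝ) + ((badset (-1) ⌊P Y⌋₊ T c).card : ℝ) := by
      exact_mod_cast hbad
    have h2 : ((badset 1 ⌊P Y⌋₊ T c).card : ℝ) ≤ ε / 32 * T := b1
    have h3 : ((badset (-1) ⌊P Y⌋₊ T c).card : ℝ) ≤ ε / 32 * T := b2
    linarith
  have hsplitR : ((FY Y).ncard : ℝ) = (({K ∈ FY Y | Good c (P Y) K}).ncard : ℝ) +
      (({K ∈ FY Y | ¬ Good c (P Y) K}).ncard : ℝ) := by exact_mod_cast hsplit
  have hquot : (({K ∈ FY Y | Good c (P Y) K}).ncard : ℝ) / ((FY Y).ncard : ℝ) =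
      1 - (({K ∈ FY Y | ¬ Good c (P Y) K}).ncard : ℝ) / ((FY Y).ncard : ℝ) := by
    rw [eq_sub_iff_add_eq, ← add_div, ← hsplitR, div_self hFpos.ne']
  rw [hquot, Real.dist_eq]
  have h9 : (({K ∈ FY Y | ¬ Good c (P Y) K}).ncard : ℝ) / ((FY Y).ncard : ℝ) ≤ ε / 2 := by
    rw [div_le_iff₀ hFpos]
    have : ε / 16 * T ≤ ε / 16 * (2 * Real.exp Y) := mul_le_mul_of_nonneg_left hTle (by positivity)
    have h10 : ε / 2 * (Real.exp Y / 4) ≤ ε / 2 * (FY Y).ncard :=
      mul_le_mul_of_nonneg_left hF (by positivity)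
    linarith
  have h11 : 0 ≤ (({K ∈ FY Y | ¬ Good c (P Y) K}).ncard : ℝ) / ((FY Y).ncard : ℝ) := by positivity
  rw [show (1 : ℝ) - (({K ∈ FY Y | ¬ Good c (P Y) K}).ncard : ℝ) / ((FY Y).ncard : ℝ) - 1 =
    -((({K ∈ FY Y | ¬ Good c (P Y) K}).ncard : ℝ) / ((FY Y).ncard : ℝ)) by ring, abs_neg,
    abs_of_nonneg h11]
  linarith

end Pool.Agent.Lib.MP_d470cf_nt
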