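import Pool.Agent.Lib.MP_d470cf_nt.WSS

set_option autoImplicit false

open NumberField Module NumberField.Units IntermediateField

namespace Pool.Agent.Lib.MP_d470cf_nt

/-- The real quadratic fields, each realised (uniquely) as a subfield of `ℝ` of degree two over
`ℚ`. -/
def RealQuadraticField : Type := {K : IntermediateField ℚ ℝ // finrank ℚ K = 2}

instance (K : RealQuadraticField) : NumberField K.1 where
  to_charZero := inferInstance
  to_finiteDimensional := FiniteDimensional.of_finrank_pos (by rw [K.2]; norm_num)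

/-- A real number `> 1` that is a root of `X ^ 2 - t X + N`, `N = ± 1`, is irrational. -/
theorem not_rat_of_quad (a : ℝ) (ha : 1 < a) (t N : ℤ) (hN : N = 1 ∨ N = -1)
    (h : a ^ 2 - t * a + N = 0) : ∀ q : ℚ, (q : ℝ) ≠ a := by
  intro q hq
  rw [← hq] at h ha
  have h1 : (q : ℚ) ^ 2 - t * q + N = 0 := by exact_mod_cast h
  have hint : IsIntegral ℤ q := by
    refine ⟨Polynomial.X ^ 2 - Polynomial.C t * Polynomial.X + Polynomial.C N, ?_, ?_⟩
    · monicity!
    · simp only [Polynomial.eval₂_add, Polynomial.eval₂_sub, Polynomial.eval₂_mul,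
        Polynomial.eval₂_pow, Polynomial.eval₂_X, Polynomial.eval₂_C]
      simpa using h1
  obtain ⟨z, hz⟩ := IsIntegrallyClosed.isIntegral_iff.1 hint
  have hz' : (z : ℚ) = q := by simpa using hz
  rw [← hz'] at h1 ha
  have h2 : z ^ 2 - t * z + N = 0 := by exact_mod_cast h1
  have h3 : z * (t - z) = N := by linear_combination -h2
  have hz1 : 1 < z := by exact_mod_cast ha
  have h4 : IsUnit z := by
    apply isUnit_of_dvd_unit (Dvd.intro _ h3)
    rcases hN with h | h <;> rw [h] <;> decide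
  rcases Int.isUnit_iff.1 h4 with h5 | h5 <;> omega

theorem quad_unique (a b : ℝ) (ha : 1 < a) (hb : 1 < b) (t N : ℤ) (hN : N = 1 ∨ N = -1)
    (h : a ^ 2 - t * a + N = 0) (h' : b ^ 2 - t * b + N = 0) : a = b := by
  by_contra hne
  have h1 : (a - b) * (a + b - t) = 0 := by linear_combination h - h'
  have h2 : a + b - t = 0 := by
    rcases mul_eq_zero.1 h1 with h2 | h2
    · exact absurd (sub_eq_zero.1 h2) hne
    · exact h2
  have h3 : a * b = N := by
    have : (t : ℝ) = a + b := by linarith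
    rw [this] at h
    linarith
  have h4 : 1 < a * b := by nlinarith
  rcases hN with h5 | h5
  · rw [h3, h5] at h4; norm_num at h4
  · rw [h3, h5] at h4; norm_num at h4

/-- The field is generated by any irrational element. -/
theorem eq_adjoin (K : RealQuadraticField) (a : ℝ) (haK : a ∈ K.1) (ha : ∀ q : ℚ, (q : ℝ) ≠ a) :
    K.1 = ℚ⟮a⟯ := by
  have hle : ℚ⟮a⟯ ≤ K.1 := by
    rw [adjoin_le_iff]
    simpa using haK
  have hK := K.2
  have : FiniteDimensional ℚ K.1 := FiniteDimensional.of_finrank_pos (by rw [K.2]; norm_num)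
  have hdvd : finrank ℚ ℚ⟮a⟯ ∣ finrank ℚ K.1 := finrank_dvd_of_le_right hle
  rw [hK] at hdvd
  have hne1 : finrank ℚ ℚ⟮a⟯ ≠ 1 := by
    intro h1
    have h2 : ℚ⟮a⟯ = ⊥ := IntermediateField.finrank_eq_one_iff.1 h1
    have h3 : a ∈ (⊥ : IntermediateField ℚ ℝ) := by
      rw [← h2]; exact mem_adjoin_simple_self ℚ a
    obtain ⟨q, hq⟩ := IntermediateField.mem_bot.1 h3
    exact ha q (by simpa using hq)
  have h2 : finrank ℚ ℚ⟮a⟯ = 2 := by
    rcases (Nat.dvd_prime Nat.prime_two).1 hdvd with h | h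
    · exact absurd h hne1
    · exact h
  exact (eq_of_le_of_finrank_eq hle (by rw [h2, hK])).symm

theorem field_data (K : RealQuadraticField) :
    ∃ (t N : ℤ), 1 < Real.exp (regulator K.1) ∧ (N = 1 ∨ N = -1) ∧
      (Real.exp (regulator K.1)) ^ 2 - t * Real.exp (regulator K.1) + N = 0 ∧
      Real.exp (regulator K.1) ∈ K.1 ∧
      (∀ x : ℝ, x ∈ K.1 → x ≠ 0 → IsIntegral ℤ x → IsIntegral ℤ x⁻¹ →
        ∃ n : ℤ, x = Real.exp (regulator K.1) ^ n ∨ x = -Real.exp (regulator K.1) ^ n) ∧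
      (∀ p : ℕ, p.Prime → p ≠ 2 → ¬ (p : ℤ) ∣ t ^ 2 - 4 * N → (p : ℤ) ^ 2 ∣ V N p t - t →
        IsWSS K.1 p) := by
  obtain ⟨α, hα, hu⟩ := exists_fund K.1 K.2
  have hpos := regulator_pos K.1
  have h1 : 1 < Real.exp (regulator K.1) := Real.one_lt_exp_iff.2 hpos
  have hN : Algebra.norm ℤ (α : 𝓞 K.1) = 1 ∨ Algebra.norm ℤ (α : 𝓞 K.1) = -1 := by
    have : IsUnit (Algebra.norm ℤ (α : 𝓞 K.1)) := α.isUnit.map (Algebra.norm ℤ)
    exact Int.isUnit_iff.1 this
  refine ⟨Algebra.trace ℤ (𝓞 K.1) (α : 𝓞 K.1), Algebra.norm ℤ (α : 𝓞 K.1), h1, hN, ?_, ?_, ?_, ?_⟩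
  · rw [← hα]
    have h2 := congrArg (rv K.1) (quad_eq K.1 K.2 (α : 𝓞 K.1))
    simpa using h2
  · rw [← hα]
    exact ((α : 𝓞 K.1) : K.1).2
  · intro x hx hx0 hxi hxi'
    have hy : IsIntegral ℤ (⟨x, hx⟩ : K.1) := by
      have := (isIntegral_algebraMap_iff (R := ℤ) (A := K.1) (B := ℝ)
        (algebraMap K.1 ℝ).injective (x := ⟨x, hx⟩)).1
      exact this hxi
    have hy' : IsIntegral ℤ (⟨x, hx⟩ : K.1)⁻¹ := by
      have := (isIntegral_algebraMap_iff (R := ℤ) (A := K.1) (B := ℝ)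
        (algebraMap K.1 ℝ).injective (x := (⟨x, hx⟩ : K.1)⁻¹)).1
      exact this (by rw [map_inv₀]; exact hxi')
    have hne : (⟨x, hx⟩ : K.1) ≠ 0 := by
      intro h; exact hx0 (congrArg Subtype.val h)
    let u : (𝓞 K.1)ˣ := ⟨⟨⟨x, hx⟩, hy⟩, ⟨(⟨x, hx⟩ : K.1)⁻¹, hy'⟩,
      by apply RingOfIntegers.ext; exact mul_inv_cancel₀ hne,
      by apply RingOfIntegers.ext; exact inv_mul_cancel₀ hne⟩
    obtain ⟨n, hn⟩ := hu u
    refine ⟨n, ?_⟩
    have hux : rv K.1 (u : 𝓞 K.1) = x := rfl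
    have hz : rv K.1 ((α ^ n : (𝓞 K.1)ˣ) : 𝓞 K.1) = Real.exp (regulator K.1) ^ n := by
      have := map_zpow (Units.map (rv K.1 : 𝓞 K.1 →* ℝ)) α n
      have h3 := congrArg Units.val this
      rw [Units.val_zpow_eq_zpow_val] at h3
      simp only [Units.coe_map, MonoidHom.coe_coe] at h3
      rw [h3, hα]
    rcases hn with hn | hn
    · left; rw [← hux, hn, hz]
    · right; rw [← hux, hn, Units.val_neg, map_neg, hz]
  · intro p hp hp2 hd hV
    exact isWSS_of_V K.1 K.2 α hu _ _ rfl rfl hN p hp hp2 hd hV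

end Pool.Agent.Lib.MP_d470cf_nt
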