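import Pool.Agent.Lib.MP_d470cf_nt.Final

set_option autoImplicit false

namespace Pool.Agent.Lib.MP_d470cf_nt.OldRegulatorDensityOne

open Pool.Agent.Lib.MP_d470cf_nt NumberField NumberField.Units Filter

/-- The field underlying a real quadratic subfield of `ℝ`, as a type. -/
def Fld (K : RealQuadraticField) : Type := K.1

noncomputable instance instField (K : RealQuadraticField) : Field (Fld K) :=
  IntermediateField.toField K.1

instance instNumberField (K : RealQuadraticField) : NumberField (Fld K) :=
  (inferInstance : NumberField K.1)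

/-- The regulator of a real quadratic field. -/
noncomputable def reg (K : RealQuadraticField) : ℝ := regulator (Fld K)

/-- The number of Wall-Sun-Sun primes `p ≤ x` of a real quadratic field. -/
noncomputable def countWSS (K : RealQuadraticField) (x : ℝ) : ℕ :=
  Set.ncard {p : ℕ | (p : ℝ) ≤ x ∧ IsWSS (Fld K) p}

/-- Order the real quadratic fields `K` by their regulator. For every `c < 1` and every bound
`P(Y) → ∞` with `P(Y) ≤ exp (Y / 4)`, the proportion of the real quadratic fields of regulator at
most `Y` that have at least `c log log P(Y)` Wall-Sun-Sun primes `p ≤ P(Y)` tends to one. -/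
theorem result (c : ℝ) (hc0 : 0 < c) (hc1 : c < 1) (P : ℝ → ℝ) (hP : Tendsto P atTop atTop)
    (hP4 : ∀ᶠ Y in atTop, P Y ≤ Real.exp (Y / 4)) :
    Tendsto (fun Y : ℝ =>
      (Set.ncard {K : RealQuadraticField | reg K ≤ Y ∧
        c * Real.log (Real.log (P Y)) ≤ (countWSS K (P Y) : ℝ)} : ℝ) /
      (Set.ncard {K : RealQuadraticField | reg K ≤ Y} : ℝ)) atTop (nhds 1) :=
  main_tendsto c hc0 hc1 P hP hP4

end Pool.Agent.Lib.MP_d470cf_nt.OldRegulatorDensityOne
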