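import Mathlib

set_option autoImplicit false

open NumberField Module

namespace Pool.Agent.Lib.MP_d470cf_nt

theorem quad_eq (K : Type*) [Field K] [NumberField K] (h : finrank ℚ K = 2) (α : 𝓞 K) :
    α ^ 2 - (Algebra.trace ℤ (𝓞 K) α : 𝓞 K) * α + (Algebra.norm ℤ α : 𝓞 K) = 0 := by
  have h2 : finrank ℤ (𝓞 K) = 2 := by rw [RingOfIntegers.rank, h]
  let b : Basis (Fin 2) ℤ (𝓞 K) := finBasisOfFinrankEq ℤ (𝓞 K) h2
  have h3 := Algebra.aeval_self_charpoly_lmul (R := ℤ) α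
  rw [← LinearMap.charpoly_toMatrix _ b, Matrix.charpoly_fin_two] at h3
  have h4 : (LinearMap.toMatrix b b) ((Algebra.lmul ℤ (𝓞 K)) α) = Algebra.leftMulMatrix b α := rfl
  rw [h4, ← Algebra.trace_eq_matrix_trace b α, ← Algebra.norm_eq_matrix_det b α] at h3
  simpa using h3

theorem discr_rel (K : Type*) [Field K] [NumberField K] (h : finrank ℚ K = 2) (α : 𝓞 K) :
    ∃ f : ℤ, (Algebra.trace ℤ (𝓞 K) α) ^ 2 - 4 * Algebra.norm ℤ α = f ^ 2 * discr K := by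
  have h2 : finrank ℤ (𝓞 K) = 2 := by rw [RingOfIntegers.rank, h]
  let b : Basis (Fin 2) ℤ (𝓞 K) := finBasisOfFinrankEq ℤ (𝓞 K) h2
  have h3 := Algebra.discr_of_matrix_vecMul b (b.toMatrix ![1, α])
  rw [Basis.toMatrix_map_vecMul, discr_eq_discr] at h3
  refine ⟨(b.toMatrix ![1, α]).det, ?_⟩
  rw [← h3, Algebra.discr_def, Matrix.det_fin_two]
  simp only [Algebra.traceMatrix_apply, Algebra.traceForm_apply]
  have e0 : (![1, α] : Fin 2 → 𝓞 K) 0 = 1 := rfl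
  have e1 : (![1, α] : Fin 2 → 𝓞 K) 1 = α := rfl
  rw [e0, e1]
  have t1 : Algebra.trace ℤ (𝓞 K) 1 = 2 := by
    have := Algebra.trace_algebraMap_of_basis b (1 : ℤ)
    simpa using this
  have t2 : Algebra.trace ℤ (𝓞 K) (α * α) =
      (Algebra.trace ℤ (𝓞 K) α) ^ 2 - 2 * Algebra.norm ℤ α := by
    have hq := quad_eq K h α
    have e2 : α * α = (Algebra.trace ℤ (𝓞 K) α) • α - (Algebra.norm ℤ α) • (1 : 𝓞 K) := by
      rw [zsmul_eq_mul, zsmul_eq_mul]
      linear_combination hq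
    rw [e2, map_sub, map_zsmul, map_zsmul, t1]
    simp only [smul_eq_mul]
    ring
  rw [one_mul, one_mul, mul_one, t1, t2]
  ring

end Pool.Agent.Lib.MP_d470cf_nt
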