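import Mathlib

set_option autoImplicit false

open NumberField NumberField.Units NumberField.InfinitePlace

namespace Pool.Agent.Lib.MP_d470cf_nt

/-- the real embedding of the ring of integers -/
noncomputable def rv (K : IntermediateField ℚ ℝ) [NumberField K] : 𝓞 K →+* ℝ :=
  (algebraMap K ℝ).comp (algebraMap (𝓞 K) K)

theorem rv_injective (K : IntermediateField ℚ ℝ) [NumberField K] :
    Function.Injective (rv K) :=
  (algebraMap K ℝ).injective.comp (FaithfulSMul.algebraMap_injective (𝓞 K) K)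

/-- the complex embedding obtained from the inclusion in ℝ -/
noncomputable def cemb (K : IntermediateField ℚ ℝ) : K →+* ℂ :=
  (algebraMap ℝ ℂ).comp (algebraMap K ℝ)

theorem cemb_real (K : IntermediateField ℚ ℝ) : ComplexEmbedding.IsReal (cemb K) := by
  rw [ComplexEmbedding.isReal_iff]
  ext x
  simp [cemb, ComplexEmbedding.conjugate]

theorem place_apply (K : IntermediateField ℚ ℝ) [NumberField K] (x : 𝓞 K) :
    InfinitePlace.mk (cemb K) (x : K) = |rv K x| := by
  simp [InfinitePlace.apply, cemb, rv]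

theorem card_places (K : IntermediateField ℚ ℝ) [NumberField K] (h : Module.finrank ℚ K = 2) :
    Fintype.card (InfinitePlace K) = 2 := by
  classical
  have h1 := InfinitePlace.card_add_two_mul_card_eq_rank K
  have h2 := InfinitePlace.card_eq_nrRealPlaces_add_nrComplexPlaces K
  have h3 : 0 < nrRealPlaces K := by
    unfold nrRealPlaces
    rw [Fintype.card_pos_iff]
    exact ⟨⟨InfinitePlace.mk (cemb K), InfinitePlace.isReal_mk_iff.2 (cemb_real K)⟩⟩
  omega

theorem rank_eq_one (K : IntermediateField ℚ ℝ) [NumberField K] (h : Module.finrank ℚ K = 2) :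
    Units.rank K = 1 := by
  unfold Units.rank
  rw [card_places K h]

theorem exists_fund (K : IntermediateField ℚ ℝ) [NumberField K] (h : Module.finrank ℚ K = 2) :
    ∃ α : (𝓞 K)ˣ, rv K α = Real.exp (regulator K) ∧
      ∀ u : (𝓞 K)ˣ, ∃ n : ℤ, u = α ^ n ∨ u = -α ^ n := by
  classical
  have hcard := card_places K h
  have hrank := rank_eq_one K h
  set w₁ : InfinitePlace K := InfinitePlace.mk (cemb K) with hw₁
  obtain ⟨w', hw'⟩ : ∃ w' : InfinitePlace K, w' ≠ w₁ := by
    by_contra hcon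
    push Not at hcon
    have : Fintype.card (InfinitePlace K) ≤ 1 :=
      Fintype.card_le_one_iff.2 (fun a b => (hcon a).trans (hcon b).symm)
    omega
  have hc1 : Fintype.card {w : InfinitePlace K // w ≠ w'} = 1 := by
    rw [Fintype.card_subtype_compl, hcard, Fintype.card_subtype_eq]
  have e : {w : InfinitePlace K // w ≠ w'} ≃ Fin (Units.rank K) :=
    Fintype.equivOfCardEq (by rw [hc1, Fintype.card_fin, hrank])
  have hreg := regulator_eq_det K w' e
  rw [Matrix.det_eq_elem_of_card_eq_one hc1 ⟨w₁, hw'.symm⟩] at hreg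
  have hsub : Subsingleton (Fin (Units.rank K)) := by rw [hrank]; infer_instance
  set η := fundSystem K (e ⟨w₁, hw'.symm⟩) with hη
  have hmult : w₁.mult = 1 := by
    rw [hw₁]
    unfold InfinitePlace.mult
    rw [if_pos (InfinitePlace.isReal_mk_iff.2 (cemb_real K))]
  have hreg2 : regulator K = abs (Real.log (abs (rv K (η : 𝓞 K)))) := by
    rw [hreg]
    simp only [Matrix.of_apply, hmult, Nat.cast_one, one_mul]
    have h5 : w₁ ((η : 𝓞 K) : K) = abs (rv K (η : 𝓞 K)) := place_apply K _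
    rw [← h5]
  have hunits : ∀ u : (𝓞 K)ˣ, ∃ n : ℤ, u = η ^ n ∨ u = -η ^ n := by
    intro u
    obtain ⟨⟨ζ, f⟩, hζ, -⟩ := exist_unique_eq_mul_prod K u
    simp only at hζ
    refine ⟨f (e ⟨w₁, hw'.symm⟩), ?_⟩
    have hprod : ∏ i, fundSystem K i ^ f i = η ^ f (e ⟨w₁, hw'.symm⟩) := by
      have : (Finset.univ : Finset (Fin (Units.rank K))) = {e ⟨w₁, hw'.symm⟩} := by
        ext i; simp [Subsingleton.elim i (e ⟨w₁, hw'.symm⟩)]
      rw [this, Finset.prod_singleton]
    rw [hprod] at hζ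
    have hz1 : w₁ ((ζ : (𝓞 K)ˣ) : K) = 1 := (mem_torsion K).1 ζ.2 w₁
    have hz2 : |rv K ((ζ : (𝓞 K)ˣ) : 𝓞 K)| = 1 := by
      rw [← place_apply, ← hw₁]; exact hz1
    rcases (abs_eq zero_le_one).1 hz2 with h1 | h1
    · left
      have : (ζ : (𝓞 K)ˣ) = 1 := by
        apply Units.ext
        apply rv_injective K
        rw [h1]; simp
      rw [hζ, this, one_mul]
    · right
      have : (ζ : (𝓞 K)ˣ) = -1 := by
        apply Units.ext
        apply rv_injective K
        rw [h1]; simp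
      rw [hζ, this]; simp
  have hpos := regulator_pos K
  have hne : rv K (η : 𝓞 K) ≠ 0 := by
    intro h0
    rw [hreg2, h0] at hpos
    simp at hpos
  have hsign : ∃ s : (𝓞 K)ˣ, (s = 1 ∨ s = -1) ∧ rv K ((s * η : (𝓞 K)ˣ) : 𝓞 K) = |rv K (η : 𝓞 K)| := by
    rcases abs_choice (rv K (η : 𝓞 K)) with h1 | h1
    · exact ⟨1, Or.inl rfl, by rw [h1]; simp⟩
    · exact ⟨-1, Or.inr rfl, by rw [h1]; simp⟩
  obtain ⟨s, hs, hsη⟩ := hsign
  have hgen : ∀ u : (𝓞 K)ˣ, ∃ n : ℤ, u = (s * η) ^ n ∨ u = -(s * η) ^ n := by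
    intro u
    obtain ⟨n, hn⟩ := hunits u
    refine ⟨n, ?_⟩
    rcases hs with rfl | rfl
    · simpa using hn
    · rcases Int.even_or_odd n with hev | hod
      · rw [mul_zpow, hev.neg_one_zpow, one_mul]; exact hn
      · rw [mul_zpow, hod.neg_one_zpow]
        rcases hn with hn | hn
        · right; rw [hn]; simp
        · left; rw [hn]; simp
  rcases abs_choice (Real.log (abs (rv K (η : 𝓞 K)))) with h1 | h1
  · refine ⟨s * η, ?_, hgen⟩
    rw [hreg2, h1, Real.exp_log (abs_pos.2 hne), hsη]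
  · refine ⟨(s * η)⁻¹, ?_, ?_⟩
    · rw [hreg2, h1, Real.exp_neg, Real.exp_log (abs_pos.2 hne), ← hsη]
      apply eq_inv_of_mul_eq_one_left
      rw [← map_mul, ← Units.val_mul, inv_mul_cancel, Units.val_one, map_one]
    · intro u
      obtain ⟨n, hn⟩ := hgen u
      refine ⟨-n, ?_⟩
      rw [zpow_neg, inv_zpow, inv_inv]
      exact hn

end Pool.Agent.Lib.MP_d470cf_nt
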