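import Pool.Agent.Lib.MP_d470cf_nt.Alg
import Pool.Agent.Lib.MP_d470cf_nt.Quad
import Pool.Agent.Lib.MP_d470cf_nt.Units

set_option autoImplicit false

open NumberField Module

namespace Pool.Agent.Lib.MP_d470cf_nt

/-- `p` is a Wall-Sun-Sun prime for the (real quadratic) number field `K`: `p` is an odd prime not
dividing the discriminant, and every unit `u` satisfies `u ^ (p - 1) = 1` modulo `p ^ 2` when
`(D/p) = 1` and `u ^ (2 * p + 2) = 1` modulo `p ^ 2` when `(D/p) = -1`. -/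
def IsWSS (K : Type*) [Field K] [NumberField K] (p : ℕ) : Prop :=
  p.Prime ∧ p ≠ 2 ∧ ¬ ((p : ℤ) ∣ discr K) ∧
    (jacobiSym (discr K) p = 1 → ∀ u : (𝓞 K)ˣ, (p : 𝓞 K) ^ 2 ∣ (u : 𝓞 K) ^ (p - 1) - 1) ∧
    (jacobiSym (discr K) p = -1 → ∀ u : (𝓞 K)ˣ, (p : 𝓞 K) ^ 2 ∣ (u : 𝓞 K) ^ (2 * p + 2) - 1)

theorem zpow_dvd {R : Type*} [CommRing R] (I : R) (α : Rˣ) (m : ℕ)
    (hm : Even m) (h : I ∣ (α : R) ^ m - 1)
    (u : Rˣ) (hu : ∃ n : ℤ, u = α ^ n ∨ u = -α ^ n) : I ∣ (u : R) ^ m - 1 := by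
  let φ : R →+* R ⧸ Ideal.span {I} := Ideal.Quotient.mk _
  have key : ∀ v : Rˣ, I ∣ (v : R) ^ m - 1 ↔ (Units.map (φ : R →* R ⧸ Ideal.span {I}) v) ^ m = 1 := by
    intro v
    rw [← Ideal.mem_span_singleton, ← Ideal.Quotient.eq_zero_iff_mem, map_sub, map_pow, map_one,
      sub_eq_zero]
    constructor
    · intro h; apply Units.ext; simpa using h
    · intro h; simpa using congrArg Units.val h
  rw [key] at h ⊢
  obtain ⟨n, hn | hn⟩ := hu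
  · rw [hn, map_zpow, ← zpow_natCast, ← zpow_mul, mul_comm, zpow_mul, zpow_natCast, h, one_zpow]
  · have h1 : u ^ m = (α ^ n) ^ m := by rw [hn, hm.neg_pow]
    rw [← map_pow, h1, map_pow, map_zpow, ← zpow_natCast, ← zpow_mul, mul_comm, zpow_mul,
      zpow_natCast, h, one_zpow]

theorem isWSS_of_V (K : Type*) [Field K] [NumberField K] (hK : finrank ℚ K = 2)
    (α : (𝓞 K)ˣ) (hα : ∀ u : (𝓞 K)ˣ, ∃ n : ℤ, u = α ^ n ∨ u = -α ^ n)
    (t N : ℤ) (ht : Algebra.trace ℤ (𝓞 K) (α : 𝓞 K) = t) (hN' : Algebra.norm ℤ (α : 𝓞 K) = N)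
    (hN : N = 1 ∨ N = -1)
    (p : ℕ) (hp : p.Prime) (hp2 : p ≠ 2) (hd : ¬ (p : ℤ) ∣ t ^ 2 - 4 * N)
    (hV : (p : ℤ) ^ 2 ∣ V N p t - t) : IsWSS K p := by
  have : Fact p.Prime := ⟨hp⟩
  have hq := quad_eq K hK (α : 𝓞 K)
  obtain ⟨f, hf⟩ := discr_rel K hK (α : 𝓞 K)
  rw [ht, hN'] at hq hf
  have hfp : ¬ (p : ℤ) ∣ f := by
    intro h
    apply hd
    rw [hf, sq, mul_assoc]
    exact dvd_mul_of_dvd_left h _
  have hD : ¬ (p : ℤ) ∣ discr K := by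
    intro h
    apply hd
    rw [hf]
    exact dvd_mul_of_dvd_right h _
  have hfz : ((f : ℤ) : ZMod p) ≠ 0 := by
    rw [Ne, ZMod.intCast_zmod_eq_zero_iff_dvd]
    exact hfp
  have hleg : legendreSym p (t ^ 2 - 4 * N) = jacobiSym (discr K) p := by
    rw [hf, legendreSym.mul, legendreSym.sq_one' p hfz, one_mul, jacobiSym.legendreSym.to_jacobiSym]
  have hmain := alg_main p hp2 t N hN (α : 𝓞 K) hq hd hV
  have hodd : Odd p := hp.odd_of_ne_two hp2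
  refine ⟨hp, hp2, hD, ?_, ?_⟩
  · intro hj u
    have h1 := hmain.1 (hleg.trans hj)
    apply zpow_dvd _ α (p - 1) (hodd.tsub_odd odd_one) _ u (hα u)
    -- α ^ p - α = α (α^(p-1) - 1)
    have h2 : (α : 𝓞 K) ^ (p - 1) - 1 = ((α⁻¹ : (𝓞 K)ˣ) : 𝓞 K) * ((α : 𝓞 K) ^ p - α) := by
      have h3 : p = (p - 1) + 1 := by have := hp.pos; omega
      have h4 : ((α⁻¹ : (𝓞 K)ˣ) : 𝓞 K) * (α : 𝓞 K) = 1 := by simp
      conv_rhs => rw [h3, pow_succ]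
      linear_combination (1 - (α : 𝓞 K) ^ (p - 1)) * h4
    rw [h2]
    exact dvd_mul_of_dvd_right h1 _
  · intro hj u
    have h1 := hmain.2 (hleg.trans hj)
    apply zpow_dvd _ α (2 * p + 2) ⟨p + 1, by ring⟩ _ u (hα u)
    -- α ^ (p+1) - N = α (α^p - (t - α))
    have h2 : (α : 𝓞 K) ^ (2 * p + 2) - 1 =
        (α : 𝓞 K) * ((α : 𝓞 K) ^ p - (t - α)) * ((α : 𝓞 K) ^ (p + 1) + N) := by
      have h3 : (α : 𝓞 K) * (t - α) = N := by linear_combination -hq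
      have h4 : ((N : ℤ) : 𝓞 K) ^ 2 = 1 := by
        rcases hN with h | h <;> rw [h] <;> simp
      have h5 : (α : 𝓞 K) * ((α : 𝓞 K) ^ p - (t - α)) = (α : 𝓞 K) ^ (p + 1) - N := by
        rw [← h3]; ring
      rw [h5]
      linear_combination h4
    rw [h2]
    exact dvd_mul_of_dvd_left (dvd_mul_of_dvd_right h1 _) _

end Pool.Agent.Lib.MP_d470cf_nt
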